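import Mathlib

/-!
# LOC / ATT (MP_8f2e1c, think 1982): growth of balls along critical orbits, the setting

`GD`: `J` is forward invariant, Taylor estimate of order two and Lipschitz estimate at the points of `J`, small derivatives only near the finite set `C` of critical
points in `J`, no equicontinuity at any point of `J` (`nn`).
-/

set_option autoImplicit false

open Filter Topology Metric Set

namespace Pool.Agent.H39.GR

/-- the planar setting -/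
structure GD (f : ℂ → ℂ) (J C : Set ℂ) (K c δ D : ℝ) : Prop where
  hK : 1 ≤ K
  hc : 0 < c
  hδ : 0 < δ
  hD : 0 < D
  Jf : ∀ z ∈ J, f z ∈ J
  df : ∀ z ∈ J, DifferentiableAt ℂ f z
  Cf : C.Finite
  CJ : C ⊆ J
  Cd : ∀ a ∈ C, deriv f a = 0
  tay : ∀ w ∈ J, ∀ z : ℂ, ‖z - w‖ ≤ δ → ‖f z - f w - deriv f w * (z - w)‖ ≤ K * ‖z - w‖ ^ 2
  lip : ∀ w ∈ J, ∀ z : ℂ, ‖z - w‖ ≤ δ → ‖f z - f w‖ ≤ K * ‖z - w‖
  lb : ∀ w ∈ J, ∀ r : ℝ, 0 < r → r ≤ δ → ‖deriv f w‖ < c * r → ∃ a ∈ C, ‖w - a‖ < r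
  nn : ∀ v ∈ J, ∀ r : ℝ, 0 < r → ∃ N : ℕ, ∀ n ≥ N, ∃ x : ℂ, ‖x - v‖ ≤ r ∧ D ≤ ‖f^[n] x - f^[n] v‖

/-- the modulus of the derivative of the iterate -/
noncomputable def M (f : ℂ → ℂ) (n : ℕ) (v : ℂ) : ℝ := ‖deriv (f^[n]) v‖

variable {f : ℂ → ℂ} {J C : Set ℂ} {K c δ D : ℝ}

theorem itJ (h : GD f J C K c δ D) (n : ℕ) {v : ℂ} (hv : v ∈ J) : f^[n] v ∈ J := by
  induction n with
  | zero => exact hv
  | succ n ih =>
    rw [Function.iterate_succ_apply']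
    exact h.Jf _ ih

theorem itD (h : GD f J C K c δ D) (n : ℕ) {v : ℂ} (hv : v ∈ J) : DifferentiableAt ℂ (f^[n]) v := by
  induction n with
  | zero => exact differentiableAt_id
  | succ n ih =>
    rw [Function.iterate_succ']
    exact (h.df _ (itJ h n hv)).comp v ih

theorem der_succ (h : GD f J C K c δ D) (n : ℕ) {v : ℂ} (hv : v ∈ J) :
    deriv (f^[n + 1]) v = deriv f (f^[n] v) * deriv (f^[n]) v := by
  rw [Function.iterate_succ']
  exact deriv_comp v (h.df _ (itJ h n hv)) (itD h n hv)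

theorem M_zero (v : ℂ) : M f 0 v = 1 := by
  unfold M
  rw [Function.iterate_zero, deriv_id, norm_one]

theorem M_succ (h : GD f J C K c δ D) (n : ℕ) {v : ℂ} (hv : v ∈ J) :
    M f (n + 1) v = ‖deriv f (f^[n] v)‖ * M f n v := by
  unfold M
  rw [der_succ h n hv, norm_mul]

theorem M_nn (n : ℕ) (v : ℂ) : 0 ≤ M f n v := norm_nonneg _

/-- no closed ball around a point of `J` is mapped into itself -/
theorem att (h : GD f J C K c δ D) {v : ℂ} (hv : v ∈ J) {k : ℕ} (hk : 1 ≤ k) {ρ : ℝ} (hρ : 0 < ρ) (hρD : 2 * ρ < D)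
    (hm : ∀ x : ℂ, ‖x - v‖ ≤ ρ → ‖f^[k] x - v‖ ≤ ρ) : False := by
  obtain ⟨N, hN⟩ := h.nn v hv ρ hρ
  have hit : ∀ j : ℕ, ∀ x : ℂ, ‖x - v‖ ≤ ρ → ‖f^[k * j] x - v‖ ≤ ρ := by
    intro j
    induction j with
    | zero =>
      intro x hx
      exact hx
    | succ j ih =>
      intro x hx
      rw [Nat.mul_succ, Function.iterate_add_apply]
      exact ih _ (hm x hx)
  obtain ⟨x, hx, hxD⟩ := hN (k * N) (Nat.le_mul_of_pos_left N hk)
  have h1 := hit N x hx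
  have h2 := hit N v (by rw [sub_self, norm_zero]; exact hρ.le)
  have h3 : ‖f^[k * N] x - f^[k * N] v‖ ≤ ‖f^[k * N] x - v‖ + ‖f^[k * N] v - v‖ := by
    have h4 : f^[k * N] x - f^[k * N] v = (f^[k * N] x - v) - (f^[k * N] v - v) := by ring
    rw [h4]
    exact norm_sub_le _ _
  linarith

/-- iterates are Lipschitz near the points of `J` -/
theorem itL (h : GD f J C K c δ D) (n : ℕ) {v : ℂ} (hv : v ∈ J) : ∀ x : ℂ, K ^ n * ‖x - v‖ ≤ δ →
    ‖f^[n] x - f^[n] v‖ ≤ K ^ n * ‖x - v‖ := by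
  induction n with
  | zero =>
    intro x _
    simp
  | succ n ih =>
    intro x hx
    have hK0 : 0 ≤ K := zero_le_one.trans h.hK
    have h1 : K ^ n * ‖x - v‖ ≤ K ^ (n + 1) * ‖x - v‖ :=
      mul_le_mul_of_nonneg_right (pow_le_pow_right₀ h.hK (Nat.le_succ n)) (norm_nonneg _)
    have h2 := ih x (h1.trans hx)
    rw [Function.iterate_succ_apply', Function.iterate_succ_apply']
    have h3 := h.lip _ (itJ h n hv) (f^[n] x) (h2.trans (h1.trans hx))
    calc ‖f (f^[n] x) - f (f^[n] v)‖ ≤ K * ‖f^[n] x - f^[n] v‖ := h3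
      _ ≤ K * (K ^ n * ‖x - v‖) := mul_le_mul_of_nonneg_left h2 hK0
      _ = K ^ (n + 1) * ‖x - v‖ := by ring

/-- a critical point in `J` is not periodic -/
theorem nper (h : GD f J C K c δ D) {a : ℂ} (ha : a ∈ C) (j : ℕ) : f^[j] (f a) ≠ a := by
  intro he
  have haJ := h.CJ ha
  have hK0 : 0 < K := zero_lt_one.trans_le h.hK
  obtain ⟨ρ, hρ⟩ : ∃ ρ : ℝ, ρ = min (min δ (D / 4)) (min 1 (min δ 1 / K ^ (j + 1))) := ⟨_, rfl⟩
  have hKj : 0 < K ^ (j + 1) := pow_pos hK0 _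
  have hρ0 : 0 < ρ := by
    rw [hρ]
    have := h.hδ
    have := h.hD
    positivity
  have h1 : ρ ≤ δ := by rw [hρ]; exact (min_le_left _ _).trans (min_le_left _ _)
  have h2 : ρ ≤ D / 4 := by rw [hρ]; exact (min_le_left _ _).trans (min_le_right _ _)
  have h3 : ρ ≤ 1 := by rw [hρ]; exact (min_le_right _ _).trans (min_le_left _ _)
  have h4 : K ^ (j + 1) * ρ ≤ min δ 1 := by
    have h5 : ρ ≤ min δ 1 / K ^ (j + 1) := by rw [hρ]; exact (min_le_right _ _).trans (min_le_right _ _)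
    rw [le_div_iff₀ hKj] at h5
    linarith
  refine att h haJ (k := j + 1) (by omega) hρ0 (by have := h.hD; linarith) fun x hx => ?_
  have h5 : ‖f x - f a‖ ≤ K * ‖x - a‖ ^ 2 := by
    have h6 := h.tay a haJ x (hx.trans h1)
    rwa [h.Cd a ha, zero_mul, sub_zero] at h6
  have h6 : ‖f x - f a‖ ≤ K * ρ ^ 2 := by
    refine h5.trans ?_
    have := norm_nonneg (x - a)
    gcongr
  have h7 : K ^ j * ‖f x - f a‖ ≤ K ^ (j + 1) * ρ * ρ := by
    calc K ^ j * ‖f x - f a‖ ≤ K ^ j * (K * ρ ^ 2) := by gcongr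
      _ = K ^ (j + 1) * ρ * ρ := by ring
  have h8 : K ^ (j + 1) * ρ * ρ ≤ min δ 1 * ρ := mul_le_mul_of_nonneg_right h4 hρ0.le
  have h9 : min δ 1 * ρ ≤ δ := by
    calc min δ 1 * ρ ≤ δ * 1 := mul_le_mul (min_le_left _ _) h3 hρ0.le h.hδ.le
      _ = δ := mul_one δ
  have h10 : min δ 1 * ρ ≤ ρ := by
    calc min δ 1 * ρ ≤ 1 * ρ := mul_le_mul_of_nonneg_right (min_le_right _ _) hρ0.le
      _ = ρ := one_mul ρ
  have h11 := itL h j (h.Jf a haJ) (f x) (h7.trans (h8.trans h9))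
  rw [he] at h11
  rw [Function.iterate_succ_apply]
  exact h11.trans (h7.trans (h8.trans h10))

end Pool.Agent.H39.GR
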