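import Pool.Agent.H39.GR.Defs

/-!
# LOC / ATT (MP_8f2e1c, think 1982): (G1), a critical value in `P` which is not exponentially contracted

`g1`. If all the critical values `f b`, `b = c₀` or `b ∈ P`, were exponentially contracted, small balls around them would stay small: `r_n = r |(f^n)'(v)| τ^(-n)`; when
`|f' (v_n)|` is too small compared with `r_n`, a critical point `a` is near `v_n ∈ P`, so `a ∈ P`, and the image of the ball is in the ball of radius `r` around `f a`.
-/

set_option autoImplicit false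

open Filter Topology Metric Set

namespace Pool.Agent.H39.GR

variable {f : ℂ → ℂ} {J C : Set ℂ} {K c δ D : ℝ}

theorem fin_pos {S : Set ℂ} (hS : S.Finite) {Q : ℂ → ℝ → Prop} (hm : ∀ a x x', 0 < x' → x' ≤ x → Q a x → Q a x')
    (hQ : ∀ a ∈ S, ∃ x : ℝ, 0 < x ∧ Q a x) : ∃ x : ℝ, 0 < x ∧ ∀ a ∈ S, Q a x := by
  choose! κ hκ hq using hQ
  rcases S.eq_empty_or_nonempty with rfl | hne
  · exact ⟨1, one_pos, fun a ha => ha.elim⟩
  · obtain ⟨b, hb, hbm⟩ := hS.exists_minimalFor κ S hne
    refine ⟨κ b, hκ b hb, fun a ha => ?_⟩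
    refine hm a (κ a) (κ b) (hκ b hb) ?_ (hq a ha)
    rcases le_total (κ a) (κ b) with h1 | h1
    · exact hbm ha h1
    · exact h1

/-- one step -/
theorem stp (h : GD f J C K c δ D) {w : ℂ} (hw : w ∈ J) {x : ℂ} {r : ℝ} (hr : r ≤ δ) (hx : ‖x - w‖ ≤ r) :
    ‖f x - f w‖ ≤ ‖deriv f w‖ * r + K * r ^ 2 := by
  have h1 := h.tay w hw x (hx.trans hr)
  have hK0 : 0 ≤ K := zero_le_one.trans h.hK
  have h2 : ‖f x - f w‖ ≤ ‖deriv f w * (x - w)‖ + ‖f x - f w - deriv f w * (x - w)‖ := by
    have h3 : f x - f w = deriv f w * (x - w) + (f x - f w - deriv f w * (x - w)) := by ring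
    calc ‖f x - f w‖ = ‖deriv f w * (x - w) + (f x - f w - deriv f w * (x - w))‖ := by rw [← h3]
      _ ≤ _ := norm_add_le _ _
  rw [norm_mul] at h2
  have h4 : ‖deriv f w‖ * ‖x - w‖ ≤ ‖deriv f w‖ * r := mul_le_mul_of_nonneg_left hx (norm_nonneg _)
  have h5 : K * ‖x - w‖ ^ 2 ≤ K * r ^ 2 := by
    have := norm_nonneg (x - w)
    gcongr
  linarith

/-- one step at a critical point -/
theorem stc (h : GD f J C K c δ D) {a : ℂ} (ha : a ∈ C) {x : ℂ} {r : ℝ} (hr : r ≤ δ) (hx : ‖x - a‖ ≤ r) :
    ‖f x - f a‖ ≤ K * r ^ 2 := by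
  have h1 := stp h (h.CJ ha) hr hx
  rwa [h.Cd a ha, norm_zero, zero_mul, zero_add] at h1

theorem g1 (h : GD f J C K c δ D) {P : Set ℂ} (hPc : IsClosed P) (hPf : ∀ z ∈ P, f z ∈ P) (hPJ : P ⊆ J) {c₀ : ℂ}
    (hc₀ : c₀ ∈ C) (hv : f c₀ ∈ P) :
    ∃ b ∈ C, (b = c₀ ∨ b ∈ P) ∧ f b ∈ P ∧ ∀ ε : ℝ, 0 < ε → ∀ N : ℕ, ∃ n ≥ N, Real.exp (-(ε * n)) ≤ M f n (f b) := by
  by_contra hcon
  push Not at hcon
  have hK0 : 0 < K := zero_lt_one.trans_le h.hK
  have hc := h.hc
  have hδ := h.hδ
  have hD := h.hD
  obtain ⟨S, hS⟩ : ∃ S : Set ℂ, S = {b | b ∈ C ∧ (b = c₀ ∨ b ∈ P)} := ⟨_, rfl⟩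
  have hSf : S.Finite := h.Cf.subset (by rw [hS]; exact fun b hb => hb.1)
  have hSP : ∀ b ∈ S, f b ∈ P := by
    intro b hb
    rw [hS] at hb
    rcases hb.2 with rfl | h1
    · exact hv
    · exact hPf b h1
  have hSC : ∀ b ∈ S, b ∈ C := by
    intro b hb
    rw [hS] at hb
    exact hb.1
  have hitP : ∀ (n : ℕ) (z : ℂ), z ∈ P → f^[n] z ∈ P := by
    intro n
    induction n with
    | zero => exact fun z hz => hz
    | succ n ih =>
      intro z hz
      rw [Function.iterate_succ_apply']
      exact hPf _ (ih z hz)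
  -- uniform contraction
  obtain ⟨x, hx, hxS⟩ := fin_pos (S := S) hSf (Q := fun b x => ∀ n : ℕ, M f n (f b) ≤ x⁻¹ * Real.exp (-(x * n))) (by
      intro b x x' hx' hxx hq n
      refine (hq n).trans ?_
      have hx0 : 0 < x := hx'.trans_le hxx
      have h1 : x⁻¹ ≤ x'⁻¹ := inv_anti₀ hx' hxx
      have h2 : Real.exp (-(x * n)) ≤ Real.exp (-(x' * n)) := by
        apply Real.exp_le_exp.2
        have : x' * n ≤ x * n := mul_le_mul_of_nonneg_right hxx (Nat.cast_nonneg n)
        linarith
      have h3 := Real.exp_pos (-(x * n))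
      have h4 : 0 < x⁻¹ := inv_pos.2 hx0
      calc x⁻¹ * Real.exp (-(x * n)) ≤ x'⁻¹ * Real.exp (-(x * n)) := mul_le_mul_of_nonneg_right h1 h3.le
        _ ≤ x'⁻¹ * Real.exp (-(x' * n)) := mul_le_mul_of_nonneg_left h2 (h4.le.trans h1)) (by
      intro b hb
      have hb' := hb
      rw [hS] at hb'
      obtain ⟨ε, hε, N, hN⟩ := hcon b hb'.1 hb'.2 (hSP b hb)
      -- a bound for the first terms
      obtain ⟨A, hA⟩ : ∃ A : ℝ, A = ∑ n ∈ Finset.range N, M f n (f b) * Real.exp (ε * n) := ⟨_, rfl⟩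
      have hA0 : 0 ≤ A := by
        rw [hA]
        exact Finset.sum_nonneg fun n _ => mul_nonneg (M_nn n _) (Real.exp_pos _).le
      have hbd : ∀ n : ℕ, M f n (f b) ≤ (A + 1) * Real.exp (-(ε * n)) := by
        intro n
        rcases lt_or_ge n N with h1 | h1
        · have h2 : M f n (f b) * Real.exp (ε * n) ≤ A := by
            rw [hA]
            exact Finset.single_le_sum (f := fun n : ℕ => M f n (f b) * Real.exp (ε * n))
              (fun n _ => mul_nonneg (M_nn n _) (Real.exp_pos _).le) (Finset.mem_range.2 h1)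
          have h3 : M f n (f b) = M f n (f b) * Real.exp (ε * n) * Real.exp (-(ε * n)) := by
            rw [mul_assoc, ← Real.exp_add, add_neg_cancel, Real.exp_zero, mul_one]
          rw [h3]
          exact mul_le_mul_of_nonneg_right (by linarith) (Real.exp_pos _).le
        · have h2 := hN n h1
          have h3 := Real.exp_pos (-(ε * n))
          nlinarith
      refine ⟨min ε (A + 1)⁻¹, lt_min hε (inv_pos.2 (by linarith)), fun n => (hbd n).trans ?_⟩
      have h5 : 0 < min ε (A + 1)⁻¹ := lt_min hε (inv_pos.2 (by linarith))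
      have h1 : A + 1 ≤ (min ε (A + 1)⁻¹)⁻¹ := by
        rw [le_inv_comm₀ (by linarith) h5]
        exact min_le_right _ _
      have h2 : Real.exp (-(ε * n)) ≤ Real.exp (-(min ε (A + 1)⁻¹ * n)) := by
        apply Real.exp_le_exp.2
        have : min ε (A + 1)⁻¹ * n ≤ ε * n := mul_le_mul_of_nonneg_right (min_le_left _ _) (Nat.cast_nonneg n)
        linarith
      exact mul_le_mul h1 h2 (Real.exp_pos _).le (inv_nonneg.2 h5.le))
  -- critical points near P are in P
  obtain ⟨η, hη, hηC⟩ := fin_pos (S := C) h.Cf (Q := fun a η => a ∉ P → ∀ p ∈ P, η ≤ ‖p - a‖) (by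
      intro a x x' _ hxx hq ha p hp
      exact hxx.trans (hq ha p hp)) (by
      intro a _
      by_cases haP : a ∈ P
      · exact ⟨1, one_pos, fun h1 => absurd haP h1⟩
      · obtain ⟨ε, hε, h1⟩ := Metric.isOpen_iff.1 hPc.isOpen_compl a haP
        refine ⟨ε, hε, fun _ p hp => ?_⟩
        by_contra h2
        rw [not_le, ← dist_eq_norm] at h2
        exact h1 (mem_ball.2 h2) hp)
  obtain ⟨A, hA⟩ : ∃ A : ℝ, A = x⁻¹ := ⟨_, rfl⟩
  have hA0 : 0 < A := by rw [hA]; exact inv_pos.2 hx
  obtain ⟨θ, hθ⟩ : ∃ θ : ℝ, θ = Real.exp (x / 2) - 1 := ⟨_, rfl⟩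
  have hθ0 : 0 < θ := by
    rw [hθ, sub_pos]
    exact Real.one_lt_exp_iff.2 (by linarith)
  obtain ⟨κ, hκ⟩ : ∃ κ : ℝ, κ = K / (θ * c) := ⟨_, rfl⟩
  have hκ0 : 0 < κ := by rw [hκ]; positivity
  -- the main estimate
  obtain ⟨r, hr⟩ : ∃ r : ℝ, r = min (min (δ / (2 * (1 + κ) * A)) (η / (2 * (κ * A)))) (min (1 / (K * ((1 + κ) * A) ^ 2))
    (min (D / (4 * A)) (δ / (2 * A)))) := ⟨_, rfl⟩
  have hr0 : 0 < r := by rw [hr]; positivity
  have e1 : 2 * (1 + κ) * A * r ≤ δ := by
    have h1 : r ≤ δ / (2 * (1 + κ) * A) := by rw [hr]; exact (min_le_left _ _).trans (min_le_left _ _)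
    rw [le_div_iff₀ (by positivity)] at h1
    linarith
  have e2 : 2 * (κ * A) * r ≤ η := by
    have h1 : r ≤ η / (2 * (κ * A)) := by rw [hr]; exact (min_le_left _ _).trans (min_le_right _ _)
    rw [le_div_iff₀ (by positivity)] at h1
    linarith
  have e3 : K * ((1 + κ) * A) ^ 2 * r ≤ 1 := by
    have h1 : r ≤ 1 / (K * ((1 + κ) * A) ^ 2) := by rw [hr]; exact (min_le_right _ _).trans (min_le_left _ _)
    rw [le_div_iff₀ (by positivity)] at h1
    linarith
  have e4 : 4 * A * r ≤ D := by
    have h1 : r ≤ D / (4 * A) := by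
      rw [hr]
      exact (min_le_right _ _).trans ((min_le_right _ _).trans (min_le_left _ _))
    rw [le_div_iff₀ (by positivity)] at h1
    linarith
  have main : ∀ n : ℕ, ∀ b ∈ S, ∃ y : ℂ, ∀ z : ℂ, ‖z - f b‖ ≤ r → ‖f^[n] z - y‖ ≤ A * r := by
    intro n
    induction n using Nat.strong_induction_on with
    | _ n ih =>
      intro b hb
      have hbP := hSP b hb
      have hbJ := hPJ hbP
      obtain ⟨R, hR⟩ : ∃ R : ℕ → ℝ, R = fun m => r * M f m (f b) * Real.exp (x / 2 * m) := ⟨_, rfl⟩
      have hR0 : ∀ m, 0 ≤ R m := by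
        intro m
        rw [hR]
        exact mul_nonneg (mul_nonneg hr0.le (M_nn m _)) (Real.exp_pos _).le
      have hRA : ∀ m, R m ≤ A * r := by
        intro m
        have h1 := hxS b hb m
        rw [← hA] at h1
        have h2 : R m ≤ r * (A * Real.exp (-(x * m))) * Real.exp (x / 2 * m) := by
          rw [hR]
          exact mul_le_mul_of_nonneg_right (mul_le_mul_of_nonneg_left h1 hr0.le) (Real.exp_pos _).le
        have h3 : r * (A * Real.exp (-(x * m))) * Real.exp (x / 2 * m) = A * r * Real.exp (-(x / 2 * m)) := by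
          rw [show -(x * (m : ℝ)) = -(x / 2 * m) + -(x / 2 * m) by ring, Real.exp_add]
          have h4 : Real.exp (-(x / 2 * m)) * Real.exp (x / 2 * m) = 1 := by
            rw [← Real.exp_add, neg_add_cancel, Real.exp_zero]
          calc r * (A * (Real.exp (-(x / 2 * m)) * Real.exp (-(x / 2 * m)))) * Real.exp (x / 2 * m)
              = A * r * Real.exp (-(x / 2 * m)) * (Real.exp (-(x / 2 * m)) * Real.exp (x / 2 * m)) := by ring
            _ = _ := by rw [h4, mul_one]
        have h4 : Real.exp (-(x / 2 * m)) ≤ 1 := by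
          apply Real.exp_le_one_iff.2
          have : 0 ≤ x / 2 * m := by positivity
          linarith
        rw [h3] at h2
        refine h2.trans ?_
        have : 0 ≤ A * r := by positivity
        nlinarith
      have hRδ : ∀ m, R m ≤ δ := by
        intro m
        refine (hRA m).trans ?_
        have h1 : 0 ≤ A * r := by positivity
        have h2 : 0 ≤ κ * (A * r) := by positivity
        nlinarith
      have hstage : ∀ m : ℕ, (∀ i < m, K * R i ≤ θ * ‖deriv f (f^[i] (f b))‖) → ∀ z : ℂ, ‖z - f b‖ ≤ r →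
          ‖f^[m] z - f^[m] (f b)‖ ≤ R m := by
        intro m
        induction m with
        | zero =>
          intro _ z hz
          have h1 : R 0 = r := by
            rw [hR]
            simp [M_zero]
          rw [h1]
          exact hz
        | succ m ihm =>
          intro hi z hz
          have h1 := ihm (fun i hi' => hi i (by omega)) z hz
          have h2 := hi m (by omega)
          rw [Function.iterate_succ_apply', Function.iterate_succ_apply']
          have h3 := stp h (itJ h m hbJ) (hRδ m) h1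
          have h4 : R (m + 1) = ‖deriv f (f^[m] (f b))‖ * R m * (1 + θ) := by
            rw [hR, hθ]
            simp only
            rw [M_succ h m hbJ]
            push_cast
            rw [show x / 2 * ((m : ℝ) + 1) = x / 2 * m + x / 2 by ring, Real.exp_add]
            ring
          have h5 : K * R m ^ 2 ≤ θ * ‖deriv f (f^[m] (f b))‖ * R m := by
            have := hR0 m
            nlinarith
          rw [h4]
          nlinarith
      by_cases hall : ∀ i < n, K * R i ≤ θ * ‖deriv f (f^[i] (f b))‖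
      · exact ⟨f^[n] (f b), fun z hz => (hstage n hall z hz).trans (hRA n)⟩
      · push Not at hall
        classical
        have hex : ∃ m, m < n ∧ θ * ‖deriv f (f^[m] (f b))‖ < K * R m := hall
        obtain ⟨m, ⟨hmn, hm⟩, hmin⟩ : ∃ m, (m < n ∧ θ * ‖deriv f (f^[m] (f b))‖ < K * R m) ∧
            ∀ i < m, K * R i ≤ θ * ‖deriv f (f^[i] (f b))‖ := by
          refine ⟨Nat.find hex, Nat.find_spec hex, fun i hi => ?_⟩
          have h1 := Nat.find_min hex hi
          by_contra h2
          rw [not_le] at h2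
          exact h1 ⟨hi.trans (Nat.find_spec hex).1, h2⟩
        have hRm : 0 < R m := by
          have h1 : 0 ≤ θ * ‖deriv f (f^[m] (f b))‖ := by positivity
          by_contra h2
          rw [not_lt] at h2
          nlinarith
        have hκR : κ * R m ≤ κ * (A * r) := mul_le_mul_of_nonneg_left (hRA m) hκ0.le
        have hlb : ‖deriv f (f^[m] (f b))‖ < c * (κ * R m) := by
          have h1 : c * (κ * R m) = K * R m / θ := by
            rw [hκ]
            field_simp
          rw [h1, lt_div_iff₀ hθ0]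
          linarith
        obtain ⟨a, ha, hav⟩ := h.lb _ (itJ h m hbJ) (κ * R m) (by positivity) (by
          refine hκR.trans ?_
          have : 0 ≤ A * r := by positivity
          have : 0 ≤ κ * (A * r) := by positivity
          nlinarith) hlb
        have haP : a ∈ P := by
          by_contra haP
          have h1 := hηC a ha haP _ (hitP m _ hbP)
          have : 0 < κ * (A * r) := by positivity
          nlinarith
        have haS : a ∈ S := by
          rw [hS]
          exact ⟨ha, Or.inr haP⟩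
        obtain ⟨y, hy⟩ := ih (n - m - 1) (by omega) a haS
        refine ⟨y, fun z hz => ?_⟩
        have h1 := hstage m hmin z hz
        have h2 : ‖f^[m] z - a‖ ≤ (1 + κ) * A * r := by
          have h3 : f^[m] z - a = (f^[m] z - f^[m] (f b)) + (f^[m] (f b) - a) := by ring
          have h4 : ‖f^[m] z - a‖ ≤ ‖f^[m] z - f^[m] (f b)‖ + ‖f^[m] (f b) - a‖ := by
            rw [h3]
            exact norm_add_le _ _
          have h5 := hRA m
          calc ‖f^[m] z - a‖ ≤ R m + κ * R m := by linarith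
            _ ≤ A * r + κ * (A * r) := add_le_add h5 hκR
            _ = (1 + κ) * A * r := by ring
        have h3 := stc h ha (r := (1 + κ) * A * r) (by
          have : 0 ≤ (1 + κ) * A * r := by positivity
          linarith) h2
        have h4 : K * ((1 + κ) * A * r) ^ 2 ≤ r := by
          have h5 : K * ((1 + κ) * A * r) ^ 2 = K * ((1 + κ) * A) ^ 2 * r * r := by ring
          rw [h5]
          nlinarith
        have h5 := hy (f (f^[m] z)) (h3.trans h4)
        rw [← Function.iterate_succ_apply' f m z, ← Function.iterate_add_apply, show n - m - 1 + (m + 1) = n by omega] at h5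
        exact h5
  have hc₀S : c₀ ∈ S := by
    rw [hS]
    exact ⟨hc₀, Or.inl rfl⟩
  obtain ⟨N, hN⟩ := h.nn (f c₀) (hPJ hv) r hr0
  obtain ⟨z, hz, hzD⟩ := hN N le_rfl
  obtain ⟨y, hy⟩ := main N c₀ hc₀S
  have h1 := hy z hz
  have h2 := hy (f c₀) (by rw [sub_self, norm_zero]; exact hr0.le)
  have h3 : ‖f^[N] z - f^[N] (f c₀)‖ ≤ ‖f^[N] z - y‖ + ‖f^[N] (f c₀) - y‖ := by
    have h4 : f^[N] z - f^[N] (f c₀) = (f^[N] z - y) - (f^[N] (f c₀) - y) := by ring
    rw [h4]
    exact norm_sub_le _ _
  have h4 : 0 < A * r := by positivity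
  linarith

end Pool.Agent.H39.GR
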