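import Pool.Agent.H39.GR.Grow

/-!
# LOC / ATT (MP_8f2e1c, think 1982): (G2), lower bound for the Abel sums at the critical value

`ret`: if the upper exponents of all critical values in `J` are `≤ 0` and `f^k (v)` is exponentially (in `L ≥ k`) close to the critical value `v`, then `|(f^k)' (v)| > 1/4`
(otherwise an attracting cycle: either the ball `4 r` is contracted, or the orbit passes near a critical point and a larger ball is mapped into itself).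
`g2`: the tent function at `v` with radius `exp (- κ L)` has integral of modulus `≥ 1 / 4` against `∑ s^k δ (v_k) / (f^k)' (v)`, `k ≤ L`, for all large `L`.
-/

set_option autoImplicit false

open Filter Topology Metric Set

namespace Pool.Agent.H39.GR

variable {f : ℂ → ℂ} {J C : Set ℂ} {K c δ D : ℝ}

private theorem ex_η (f : ℂ → ℂ) (a a' : ℂ) (n : ℕ) :
    ∃ x : ℝ, 0 < x ∧ ∀ j < n, f^[j] (f a) ≠ a' → x ≤ ‖f^[j] (f a) - a'‖ := by
  induction n with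
  | zero => exact ⟨1, one_pos, fun j hj => absurd hj (Nat.not_lt_zero j)⟩
  | succ n ih =>
    obtain ⟨x, hx, h⟩ := ih
    by_cases he : f^[n] (f a) = a'
    · refine ⟨x, hx, fun j hj hne => ?_⟩
      rcases Nat.lt_succ_iff_lt_or_eq.1 hj with h1 | h1
      · exact h j h1 hne
      · rw [h1] at hne
        exact absurd he hne
    · refine ⟨min x ‖f^[n] (f a) - a'‖, lt_min hx (norm_pos_iff.2 (sub_ne_zero.2 he)), fun j hj hne => ?_⟩
      rcases Nat.lt_succ_iff_lt_or_eq.1 hj with h1 | h1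
      · exact (min_le_left _ _).trans (h j h1 hne)
      · rw [h1]
        exact min_le_right _ _

/-- the constants exist for large `L` -/
theorem gc_ex (h : GD f J C K c δ D) (hU : ∀ a ∈ C, ∀ ε : ℝ, 0 < ε → ∃ A : ℝ, ∀ n : ℕ, M f n (f a) ≤ A * Real.exp (ε * n))
    {ε : ℝ} (hε : 0 < ε) {u₀ : ℝ} (hu₀ : 0 < u₀) :
    ∃ (A Γ η : ℝ) (j₁ L₀ : ℕ), ∀ L ≥ L₀, GC f C K c δ A ε Γ (Real.exp (-(ε * L)) ^ 26) (K / c * √(Real.exp (-(ε * L)) ^ 26)) η j₁ L ∧
      Γ * (Set.ncard C + 1) ≤ ε * L ∧ Real.exp (-(ε * L)) ≤ u₀ ∧ √(Real.exp (-(ε * L)) ^ 26) = Real.exp (-(ε * L)) ^ 13 := by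
  have hK0 : 0 < K := zero_lt_one.trans_le h.hK
  have hc := h.hc
  have hδ := h.hδ
  obtain ⟨x, hx, hxC⟩ := fin_pos (S := C) h.Cf (Q := fun a x => ∀ n : ℕ, M f n (f a) ≤ x⁻¹ * Real.exp (ε * n)) (by
      intro a x x' hx' hxx hq n
      exact (hq n).trans (mul_le_mul_of_nonneg_right (inv_anti₀ hx' hxx) (Real.exp_pos _).le)) (by
      intro a ha
      obtain ⟨A, hA⟩ := hU a ha ε hε
      refine ⟨(|A| + 1)⁻¹, inv_pos.2 (by positivity), fun n => (hA n).trans ?_⟩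
      rw [inv_inv]
      exact mul_le_mul_of_nonneg_right ((le_abs_self A).trans (by linarith)) (Real.exp_pos _).le)
  obtain ⟨A, hA⟩ : ∃ A : ℝ, A = x⁻¹ + 1 := ⟨_, rfl⟩
  have hx1 : 0 < x⁻¹ := inv_pos.2 hx
  have hA1 : 1 ≤ A := by rw [hA]; linarith
  have h8 : 1 ≤ 8 * K * A := by
    have := h.hK
    nlinarith
  obtain ⟨Γ, hΓ⟩ : ∃ Γ : ℝ, Γ = Real.log (8 * K * A) := ⟨_, rfl⟩
  have hΓ0 : 0 ≤ Γ := by rw [hΓ]; exact Real.log_nonneg h8
  have hΓe : 8 * K * A ≤ Real.exp Γ := by rw [hΓ, Real.exp_log (by linarith)]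
  obtain ⟨j₁, hj₁⟩ := exists_nat_ge (Γ * (Set.ncard C + 1) / ε)
  have hj : Γ * (Set.ncard C + 1) ≤ ε * j₁ := by
    rw [div_le_iff₀ hε] at hj₁
    linarith
  obtain ⟨η, hη, hηC⟩ := fin_pos (S := C) h.Cf (Q := fun a x => ∀ a' ∈ C, ∀ j < j₁, f^[j] (f a) ≠ a' → x ≤ ‖f^[j] (f a) - a'‖) (by
      intro a x x' _ hxx hq a' ha' j hj hne
      exact hxx.trans (hq a' ha' j hj hne)) (by
      intro a _
      exact fin_pos (S := C) h.Cf (Q := fun a' x => ∀ j < j₁, f^[j] (f a) ≠ a' → x ≤ ‖f^[j] (f a) - a'‖) (by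
        intro a' x x' _ hxx hq j hj hne
        exact hxx.trans (hq j hj hne)) (fun a' _ => ex_η f a a' j₁))
  -- limits
  have hu : Tendsto (fun L : ℕ => Real.exp (-(ε * L))) atTop (𝓝 0) := by
    refine Real.tendsto_exp_neg_atTop_nhds_zero.comp ?_
    exact tendsto_natCast_atTop_atTop.const_mul_atTop hε
  have hLu : Tendsto (fun L : ℕ => (L : ℝ) * Real.exp (-(ε * L))) atTop (𝓝 0) := by
    have h1 : Tendsto (fun y : ℝ => y ^ 1 * Real.exp (-y)) atTop (𝓝 0) := Real.tendsto_pow_mul_exp_neg_atTop_nhds_zero 1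
    have h2 := (h1.comp (tendsto_natCast_atTop_atTop.const_mul_atTop hε : Tendsto (fun L : ℕ => ε * (L : ℝ)) atTop atTop)).const_mul ε⁻¹
    rw [mul_zero] at h2
    refine h2.congr fun L => ?_
    simp only [Function.comp_apply, pow_one]
    field_simp
  have e1 : ∀ᶠ L : ℕ in atTop, Real.exp (-(ε * L)) ≤ min (min u₀ 1) (min η (δ / 2)) :=
    hu.eventually (Iic_mem_nhds (by positivity))
  have e2 : ∀ᶠ L : ℕ in atTop, (L : ℝ) * Real.exp (-(ε * L)) ≤ (c / (2 * K)) :=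
    hLu.eventually (Iic_mem_nhds (by positivity))
  obtain ⟨L₁, hL₁⟩ := exists_nat_ge (Γ * (Set.ncard C + 1) / ε)
  have e3 : ∀ᶠ L : ℕ in atTop, L₁ ≤ L := eventually_ge_atTop L₁
  obtain ⟨L₀, hL₀⟩ := eventually_atTop.1 (e1.and (e2.and e3))
  refine ⟨A, Γ, η, j₁, L₀, fun L hL => ?_⟩
  obtain ⟨f1, f2, f3⟩ := hL₀ L hL
  obtain ⟨u, hu'⟩ : ∃ u : ℝ, u = Real.exp (-(ε * L)) := ⟨_, rfl⟩
  rw [← hu'] at f1 f2 ⊢
  have hu0 : 0 < u := by rw [hu']; exact Real.exp_pos _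
  have g1 : u ≤ u₀ := f1.trans ((min_le_left _ _).trans (min_le_left _ _))
  have g2 : u ≤ 1 := f1.trans ((min_le_left _ _).trans (min_le_right _ _))
  have g3 : u ≤ η := f1.trans ((min_le_right _ _).trans (min_le_left _ _))
  have g4 : u ≤ δ / 2 := f1.trans ((min_le_right _ _).trans (min_le_right _ _))
  have hsq : √(u ^ 26) = u ^ 13 := by
    rw [show u ^ 26 = (u ^ 13) ^ 2 by ring]
    exact Real.sqrt_sq (pow_nonneg hu0.le _)
  have hp : ∀ n : ℕ, 1 ≤ n → u ^ n ≤ u := fun n hn => by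
    calc u ^ n ≤ u ^ 1 := pow_le_pow_of_le_one hu0.le g2 hn
      _ = u := pow_one u
  have hΓL : Γ * (Set.ncard C + 1) ≤ ε * L := by
    rw [div_le_iff₀ hε] at hL₁
    have h1 : (L₁ : ℝ) ≤ L := by exact_mod_cast f3
    have h2 : ε * L₁ ≤ ε * L := mul_le_mul_of_nonneg_left h1 hε.le
    linarith
  refine ⟨⟨fun a ha n => ?_, hε, hA1, hΓ0, hΓe, hj, hηC, pow_pos hu0 _, pow_le_one₀ hu0.le g2, ?_, ?_, rfl, ?_⟩, hΓL, g1, hsq⟩
  · refine (hxC a ha n).trans (mul_le_mul_of_nonneg_right ?_ (Real.exp_pos _).le)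
    rw [hA]
    linarith
  · rw [hsq]
    exact (hp 13 (by norm_num)).trans g3
  · rw [hsq]
    have := hp 13 (by norm_num)
    linarith
  · rw [hsq]
    have h1 : K / c * u ^ 13 ≤ K / c * u := mul_le_mul_of_nonneg_left (hp 13 (by norm_num)) (by positivity)
    have h2 : (1 + K / c * u ^ 13) ^ L ≤ Real.exp (K / c * u ^ 13) ^ L := by
      have h3 : 0 ≤ K / c * u ^ 13 := by positivity
      refine pow_le_pow_left₀ (by linarith) ?_ L
      have := Real.add_one_le_exp (K / c * u ^ 13)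
      linarith
    refine h2.trans ?_
    rw [← Real.exp_nat_mul]
    have h3 : (L : ℝ) * (K / c * u ^ 13) ≤ 1 / 2 := by
      calc (L : ℝ) * (K / c * u ^ 13) ≤ (L : ℝ) * (K / c * u) := mul_le_mul_of_nonneg_left h1 (Nat.cast_nonneg _)
        _ = K / c * ((L : ℝ) * u) := by ring
        _ ≤ K / c * (c / (2 * K)) := mul_le_mul_of_nonneg_left f2 (by positivity)
        _ = 1 / 2 := by field_simp
    refine (Real.exp_le_exp.2 h3).trans ?_
    have h4 : Real.exp (1 / 2) * Real.exp (1 / 2) = Real.exp 1 := by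
      rw [← Real.exp_add]
      norm_num
    have h5 := Real.exp_one_lt_d9
    have h6 := Real.exp_pos (1 / 2 : ℝ)
    nlinarith

theorem ret (h : GD f J C K c δ D) (hU : ∀ a ∈ C, ∀ ε : ℝ, 0 < ε → ∃ A : ℝ, ∀ n : ℕ, M f n (f a) ≤ A * Real.exp (ε * n))
    {b : ℂ} (hb : b ∈ C) {κ : ℝ} (hκ : 0 < κ) : ∃ L₀ : ℕ, ∀ L ≥ L₀, ∀ k : ℕ, 1 ≤ k → k ≤ L →
      ‖f^[k] (f b) - f b‖ < Real.exp (-(κ * L)) → 1 / 4 < M f k (f b) := by
  have hK := h.hK
  have hK0 : 0 < K := zero_lt_one.trans_le h.hK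
  have hc := h.hc
  have hδ := h.hδ
  have hD := h.hD
  obtain ⟨ε, hεκ⟩ : ∃ ε : ℝ, ε = κ / 100 := ⟨_, rfl⟩
  have hε : 0 < ε := by rw [hεκ]; linarith
  obtain ⟨u₀, hu₀⟩ : ∃ u₀ : ℝ, u₀ = min (min (δ / 4) (D / 10)) (1 / (33 * K)) := ⟨_, rfl⟩
  have hu₀0 : 0 < u₀ := by rw [hu₀]; positivity
  obtain ⟨A, Γ, η, j₁, L₀, hL₀⟩ := gc_ex h hU hε hu₀0
  refine ⟨L₀, fun L hL k hk1 hkL hkd => ?_⟩
  obtain ⟨g, hΓL, hu, hsq⟩ := hL₀ L hL
  obtain ⟨u, hu'⟩ : ∃ u : ℝ, u = Real.exp (-(ε * L)) := ⟨_, rfl⟩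
  rw [← hu'] at g hu hsq
  have hu0 : 0 < u := by rw [hu']; exact Real.exp_pos _
  have hue : Real.exp (ε * L) * u = 1 := by
    rw [hu', ← Real.exp_add, add_neg_cancel, Real.exp_zero]
  have hr : Real.exp (-(κ * L)) = u ^ 100 := by
    rw [hu', ← Real.exp_nat_mul, hεκ]
    congr 1
    push_cast
    ring
  rw [hr] at hkd
  have u1 : u ≤ δ / 4 := hu.trans (by rw [hu₀]; exact (min_le_left _ _).trans (min_le_left _ _))
  have u2 : u ≤ D / 10 := hu.trans (by rw [hu₀]; exact (min_le_left _ _).trans (min_le_right _ _))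
  have u3 : 33 * K * u ≤ 1 := by
    have h1 : u ≤ 1 / (33 * K) := hu.trans (by rw [hu₀]; exact min_le_right _ _)
    rw [le_div_iff₀ (by positivity)] at h1
    linarith
  have u4 : 33 * u ≤ 1 := by
    have : u ≤ K * u := by nlinarith
    linarith
  have u5 : u ≤ 1 := by linarith
  have hp : ∀ n m : ℕ, m ≤ n → u ^ n ≤ u ^ m := fun n m hn => pow_le_pow_of_le_one hu0.le u5 hn
  have hp1 : ∀ n : ℕ, 1 ≤ n → u ^ n ≤ u := fun n hn => by
    have := hp n 1 hn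
    rwa [pow_one] at this
  obtain ⟨v, hv⟩ : ∃ v : ℂ, v = f b := ⟨_, rfl⟩
  have hbJ := h.CJ hb
  have hvJ : v ∈ J := by rw [hv]; exact h.Jf _ hbJ
  by_contra hM
  rw [not_lt] at hM
  rw [← hv] at hM hkd
  -- growth with factor u^-3
  have hE : ∀ a : ℂ, ∀ t : ℕ, t ≤ L → Real.exp (Γ * (rk f C a + 1) + 2 * ε * t) * u ^ 3 ≤ 1 := by
    intro a t ht
    have h1 : Γ * ((rk f C a : ℝ) + 1) ≤ Γ * (Set.ncard C + 1) := by
      have h2 : (rk f C a : ℝ) ≤ Set.ncard C := by exact_mod_cast rk_le h a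
      exact mul_le_mul_of_nonneg_left (by linarith) g.hΓ0
    have h2 : ε * t ≤ ε * L := mul_le_mul_of_nonneg_left (by exact_mod_cast ht) hε.le
    have h3 : Real.exp (Γ * (rk f C a + 1) + 2 * ε * t) ≤ Real.exp (ε * L) ^ 3 := by
      rw [← Real.exp_nat_mul]
      apply Real.exp_le_exp.2
      push_cast
      linarith
    calc Real.exp (Γ * (rk f C a + 1) + 2 * ε * t) * u ^ 3 ≤ Real.exp (ε * L) ^ 3 * u ^ 3 :=
          mul_le_mul_of_nonneg_right h3 (pow_nonneg hu0.le _)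
      _ = (Real.exp (ε * L) * u) ^ 3 := by ring
      _ = 1 := by rw [hue, one_pow]
  have grow' : ∀ t ≤ L, ∀ a ∈ C, ∀ ρ : ℝ, 0 < ρ → ρ ≤ u ^ 29 → ∀ x x' : ℂ, ‖x - f a‖ ≤ ρ → ‖x' - f a‖ ≤ ρ →
      ‖f^[t] x - f^[t] x'‖ * u ^ 3 ≤ 2 * ρ := by
    intro t ht a ha ρ hρ hρu x x' hx hx'
    have h0 := hE a t ht
    have hu3 : 0 < u ^ 3 := pow_pos hu0 3
    obtain ⟨e, he⟩ : ∃ e : ℝ, e = Real.exp (Γ * (rk f C a + 1) + 2 * ε * t) := ⟨_, rfl⟩
    have he0 : 0 < e := by rw [he]; exact Real.exp_pos _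
    rw [← he] at h0
    have h1 : ρ * e ≤ u ^ 26 := by
      have h2 : ρ * e * u ^ 3 ≤ u ^ 26 * u ^ 3 := by
        calc ρ * e * u ^ 3 = ρ * (e * u ^ 3) := by ring
          _ ≤ ρ * 1 := mul_le_mul_of_nonneg_left h0 hρ.le
          _ ≤ u ^ 26 * u ^ 3 := by rw [mul_one, ← pow_add]; exact hρu
      exact le_of_mul_le_mul_right h2 hu3
    obtain ⟨y, hy⟩ := grow h g t ht a ha ρ hρ (by rw [← he]; exact h1)
    rw [← he] at hy
    have h2 := hy x hx
    have h3 := hy x' hx'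
    have h4 : ‖f^[t] x - f^[t] x'‖ ≤ ‖f^[t] x - y‖ + ‖f^[t] x' - y‖ := by
      have h5 : f^[t] x - f^[t] x' = (f^[t] x - y) - (f^[t] x' - y) := by ring
      rw [h5]
      exact norm_sub_le _ _
    calc ‖f^[t] x - f^[t] x'‖ * u ^ 3 ≤ (2 * (ρ * e)) * u ^ 3 := mul_le_mul_of_nonneg_right (by linarith) hu3.le
      _ = 2 * ρ * (e * u ^ 3) := by ring
      _ ≤ 2 * ρ * 1 := mul_le_mul_of_nonneg_left h0 (by linarith)
      _ = 2 * ρ := mul_one _
  have hu100 : 0 < u ^ 100 := pow_pos hu0 _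
  -- the radii of the small ball
  have hRe : ∀ i ≤ L, Rd f v (4 * u ^ 100) (K / c * √(u ^ 26)) i ≤ 4 * u ^ 98 := by
    intro i hi
    have h1 := (gc_R h g hb (ρ := 4 * u ^ 100) (by positivity) hi).2.2
    rw [← hv] at h1
    refine h1.trans ?_
    have h2 : Real.exp (Γ + ε * i) ≤ Real.exp (ε * L) ^ 2 := by
      rw [← Real.exp_nat_mul]
      apply Real.exp_le_exp.2
      have h3 : ε * i ≤ ε * L := mul_le_mul_of_nonneg_left (by exact_mod_cast hi) hε.le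
      have h4 : Γ ≤ Γ * (Set.ncard C + 1) := by
        have h5 : (0 : ℝ) ≤ Set.ncard C := Nat.cast_nonneg _
        have := g.hΓ0
        nlinarith
      push_cast
      linarith
    calc 4 * u ^ 100 * Real.exp (Γ + ε * i) ≤ 4 * u ^ 100 * Real.exp (ε * L) ^ 2 := mul_le_mul_of_nonneg_left h2 (by positivity)
      _ = 4 * u ^ 98 * (Real.exp (ε * L) * u) ^ 2 := by ring
      _ = 4 * u ^ 98 := by rw [hue, one_pow, mul_one]
  have h498 : 4 * u ^ 98 ≤ u ^ 26 := by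
    have h1 : u ^ 98 = u ^ 26 * u ^ 72 := by rw [← pow_add]
    have h2 := hp1 72 (by norm_num)
    have h3 : 0 < u ^ 26 := pow_pos hu0 _
    rw [h1]
    nlinarith
  rcases first h g hb (ρ := 4 * u ^ 100) (by positivity) hkL (fun i hi => by rw [← hv]; exact (hRe i (hi.trans hkL)).trans h498) with
    h1 | ⟨j, hjk, a', ha', hR0, hd, -⟩
  · rw [← hv] at h1
    have hRk : Rd f v (4 * u ^ 100) (K / c * √(u ^ 26)) k ≤ 2 * u ^ 100 := by
      obtain ⟨hq0, h2⟩ := gc_pow h g hkL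
      unfold Rd
      calc 4 * u ^ 100 * M f k v * (1 + K / c * √(u ^ 26)) ^ k ≤ 4 * u ^ 100 * (1 / 4) * 2 := by
            have h3 := M_nn (f := f) k v
            gcongr
        _ = 2 * u ^ 100 := by ring
    refine att h hvJ hk1 (ρ := 4 * u ^ 100) (by positivity) ?_ fun x hx => ?_
    · have := hp1 100 (by norm_num)
      linarith
    · have h2 := (h1 x hx).trans hRk
      have h3 : ‖f^[k] x - v‖ ≤ ‖f^[k] x - f^[k] v‖ + ‖f^[k] v - v‖ := by
        have h4 : f^[k] x - v = (f^[k] x - f^[k] v) + (f^[k] v - v) := by ring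
        rw [h4]
        exact norm_add_le _ _
      linarith
  · rw [← hv] at hR0 hd
    have hjL : j ≤ L := hjk.le.trans hkL
    have hs : √(Rd f v (4 * u ^ 100) (K / c * √(u ^ 26)) j) ≤ 2 * u ^ 49 := by
      have h1 : √(4 * u ^ 98) = 2 * u ^ 49 := by
        rw [show 4 * u ^ 98 = (2 * u ^ 49) ^ 2 by ring]
        exact Real.sqrt_sq (by positivity)
      rw [← h1]
      exact Real.sqrt_le_sqrt (hRe j hjL)
    have hva : ‖f^[j] v - a'‖ ≤ 2 * u ^ 49 := hd.le.trans hs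
    refine att h hvJ hk1 (ρ := u ^ 66) (by positivity) ?_ fun x hx => ?_
    · have := hp1 66 (by norm_num)
      linarith
    · have hv0 : ‖v - v‖ ≤ u ^ 66 := by
        rw [sub_self, norm_zero]
        positivity
      -- up to time j
      have key1 : ∀ z : ℂ, ‖z - v‖ ≤ u ^ 66 → ‖f^[j] z - a'‖ ≤ 4 * u ^ 49 := by
        intro z hz
        have h1 := grow' j hjL b hb (u ^ 66) (by positivity) (hp 66 29 (by norm_num)) z v (by rw [← hv]; exact hz)
          (by rw [← hv]; exact hv0)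
        have h2 : ‖f^[j] z - f^[j] v‖ ≤ 2 * u ^ 63 := by
          have h3 : 0 < u ^ 3 := pow_pos hu0 3
          refine le_of_mul_le_mul_right (h1.trans ?_) h3
          rw [mul_assoc, ← pow_add]
        have h3 := hp 63 49 (by norm_num)
        have h4 : ‖f^[j] z - a'‖ ≤ ‖f^[j] z - f^[j] v‖ + ‖f^[j] v - a'‖ := by
          have h5 : f^[j] z - a' = (f^[j] z - f^[j] v) + (f^[j] v - a') := by ring
          rw [h5]
          exact norm_add_le _ _
        linarith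
      have key2 : ∀ z : ℂ, ‖z - v‖ ≤ u ^ 66 → ‖f^[j + 1] z - f a'‖ ≤ 16 * K * u ^ 98 := by
        intro z hz
        rw [Function.iterate_succ_apply']
        have h1 := stc h ha' (r := 4 * u ^ 49) (by
          have := hp1 49 (by norm_num)
          linarith) (key1 z hz)
        refine h1.trans (le_of_eq ?_)
        ring
      have h16 : 16 * K * u ^ 98 ≤ u ^ 29 := by
        have h1 : u ^ 98 = u ^ 29 * u ^ 69 := by rw [← pow_add]
        have h2 := hp1 69 (by norm_num)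
        have h3 : 0 < u ^ 29 := pow_pos hu0 _
        have h4 : 16 * K * u ^ 69 ≤ 1 := by
          have h5 : K * u ^ 69 ≤ K * u := mul_le_mul_of_nonneg_left h2 hK0.le
          have h6 : 0 ≤ K * u := by positivity
          linarith
        rw [h1]
        nlinarith
      have h1 := grow' (k - j - 1) (by omega) a' ha' (16 * K * u ^ 98) (by positivity) h16 _ _ (key2 x hx) (key2 v hv0)
      rw [← Function.iterate_add_apply, ← Function.iterate_add_apply, show k - j - 1 + (j + 1) = k by omega] at h1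
      have h2 : ‖f^[k] x - f^[k] v‖ ≤ 32 * K * u ^ 95 := by
        have h3 : 0 < u ^ 3 := pow_pos hu0 3
        refine le_of_mul_le_mul_right (h1.trans (le_of_eq ?_)) h3
        rw [show u ^ 98 = u ^ 95 * u ^ 3 by rw [← pow_add]]
        ring
      have h3 : ‖f^[k] x - v‖ ≤ ‖f^[k] x - f^[k] v‖ + ‖f^[k] v - v‖ := by
        have h4 : f^[k] x - v = (f^[k] x - f^[k] v) + (f^[k] v - v) := by ring
        rw [h4]
        exact norm_add_le _ _
      have h5 : 32 * K * u ^ 95 + u ^ 100 ≤ u ^ 66 := by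
        have h6 : u ^ 95 = u ^ 66 * u ^ 29 := by rw [← pow_add]
        have h7 : u ^ 100 = u ^ 66 * u ^ 34 := by rw [← pow_add]
        have h8 := hp1 29 (by norm_num)
        have h9 := hp1 34 (by norm_num)
        have h10 : 0 < u ^ 66 := pow_pos hu0 _
        have h11 : 32 * K * u ^ 29 + u ^ 34 ≤ 1 := by
          have h12 : K * u ^ 29 ≤ K * u := mul_le_mul_of_nonneg_left h8 hK0.le
          have h13 : u ≤ K * u := by nlinarith
          linarith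
        rw [h6, h7]
        nlinarith
      linarith

theorem g2 (h : GD f J C K c δ D) (hU : ∀ a ∈ C, ∀ ε : ℝ, 0 < ε → ∃ A : ℝ, ∀ n : ℕ, M f n (f a) ≤ A * Real.exp (ε * n))
    {b : ℂ} (hb : b ∈ C) (hper : ∀ n : ℕ, 1 ≤ n → f^[n] (f b) ≠ f b) {s : ℝ} (hs0 : 0 < s) (hs1 : s < 1) {κ : ℝ} (hκ : 0 < κ) :
    ∃ L₀ : ℕ, ∀ L ≥ L₀, 1 / 4 ≤ ‖∑ k ∈ Finset.range (L + 1), (s : ℂ) ^ k * (deriv (f^[k]) (f b))⁻¹ *
      ((max 0 (1 - ‖f^[k] (f b) - f b‖ / Real.exp (-(κ * L))) : ℝ) : ℂ)‖ := by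
  obtain ⟨L₁, hL₁⟩ := ret h hU hb hκ
  obtain ⟨σ, hσ⟩ : ∃ σ : ℝ, σ = √s := ⟨_, rfl⟩
  have hσ0 : 0 < σ := by rw [hσ]; exact Real.sqrt_pos.2 hs0
  have hσs : σ * σ = s := by rw [hσ]; exact Real.mul_self_sqrt hs0.le
  have hσ1 : σ < 1 := by
    by_contra h1
    rw [not_lt] at h1
    nlinarith
  -- the first returns come late
  obtain ⟨k₁, hk₁⟩ : ∃ k₁ : ℕ, σ ^ k₁ < 3 / 16 * (1 - σ) := exists_pow_lt_of_lt_one (by linarith) hσ1
  obtain ⟨x, hx, hxk⟩ : ∃ x : ℝ, 0 < x ∧ ∀ j < k₁, 1 ≤ j → x ≤ ‖f^[j] (f b) - f b‖ := by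
    clear hk₁
    induction k₁ with
    | zero => exact ⟨1, one_pos, fun j hj => absurd hj (Nat.not_lt_zero j)⟩
    | succ n ih =>
      obtain ⟨x, hx, h1⟩ := ih
      rcases Nat.eq_zero_or_pos n with hn | hn
      · refine ⟨1, one_pos, fun j hj hj1 => ?_⟩
        omega
      · refine ⟨min x ‖f^[n] (f b) - f b‖, lt_min hx (norm_pos_iff.2 (sub_ne_zero.2 (hper n hn))), fun j hj hj1 => ?_⟩
        rcases Nat.lt_succ_iff_lt_or_eq.1 hj with h2 | h2
        · exact (min_le_left _ _).trans (h1 j h2 hj1)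
        · rw [h2]
          exact min_le_right _ _
  have hu : Tendsto (fun L : ℕ => Real.exp (-(κ * L))) atTop (𝓝 0) :=
    Real.tendsto_exp_neg_atTop_nhds_zero.comp (tendsto_natCast_atTop_atTop.const_mul_atTop hκ)
  obtain ⟨L₂, hL₂⟩ := eventually_atTop.1 (hu.eventually (Iic_mem_nhds hx))
  refine ⟨max L₁ L₂, fun L hL => ?_⟩
  have hLa : L₁ ≤ L := (le_max_left _ _).trans hL
  have hLb : L₂ ≤ L := (le_max_right _ _).trans hL
  obtain ⟨r, hr⟩ : ∃ r : ℝ, r = Real.exp (-(κ * L)) := ⟨_, rfl⟩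
  have hr0 : 0 < r := by rw [hr]; exact Real.exp_pos _
  have hrx : r ≤ x := by rw [hr]; exact hL₂ L hLb
  rw [← hr]
  obtain ⟨F, hF⟩ : ∃ F : ℕ → ℂ, F = fun k => (s : ℂ) ^ k * (deriv (f^[k]) (f b))⁻¹ *
      ((max 0 (1 - ‖f^[k] (f b) - f b‖ / r) : ℝ) : ℂ) := ⟨_, rfl⟩
  have hF0 : F 0 = 1 := by
    rw [hF]
    simp
  have hFk : ∀ k ∈ Finset.range L, ‖F (k + 1)‖ ≤ 4 * σ ^ k₁ * σ ^ k := by
    intro k hk
    have hkL : k + 1 ≤ L := Finset.mem_range.1 hk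
    by_cases hd : ‖f^[k + 1] (f b) - f b‖ < r
    · have hM := hL₁ L hLa (k + 1) (by omega) hkL (by rw [← hr]; exact hd)
      have hkk : k₁ ≤ k + 1 := by
        by_contra h1
        rw [not_le] at h1
        have := hxk (k + 1) h1 (by omega)
        linarith
      have h1 : ‖(deriv (f^[k + 1]) (f b))⁻¹‖ ≤ 4 := by
        rw [norm_inv]
        have h2 : 1 / 4 < ‖deriv (f^[k + 1]) (f b)‖ := hM
        rw [inv_le_comm₀ (by linarith) (by norm_num)]
        linarith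
      have h2 : ‖((max 0 (1 - ‖f^[k + 1] (f b) - f b‖ / r) : ℝ) : ℂ)‖ ≤ 1 := by
        rw [Complex.norm_real, Real.norm_of_nonneg (le_max_left _ _)]
        refine max_le zero_le_one ?_
        have : 0 ≤ ‖f^[k + 1] (f b) - f b‖ / r := by positivity
        linarith
      have h3 : ‖(s : ℂ) ^ (k + 1)‖ ≤ σ ^ k₁ * σ ^ k := by
        rw [norm_pow, Complex.norm_real, Real.norm_of_nonneg hs0.le, ← hσs, mul_pow, ← pow_add, ← pow_add]
        exact pow_le_pow_of_le_one hσ0.le hσ1.le (by omega)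
      have h4 : 0 ≤ σ ^ k₁ * σ ^ k := by positivity
      rw [hF]
      simp only
      rw [norm_mul, norm_mul]
      calc ‖(s : ℂ) ^ (k + 1)‖ * ‖(deriv (f^[k + 1]) (f b))⁻¹‖ * ‖((max 0 (1 - ‖f^[k + 1] (f b) - f b‖ / r) : ℝ) : ℂ)‖
          ≤ (σ ^ k₁ * σ ^ k) * 4 * 1 := by gcongr
        _ = 4 * σ ^ k₁ * σ ^ k := by ring
    · have h1 : max 0 (1 - ‖f^[k + 1] (f b) - f b‖ / r) = 0 := by
        rw [not_lt] at hd
        refine max_eq_left ?_
        have : 1 ≤ ‖f^[k + 1] (f b) - f b‖ / r := by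
          rw [le_div_iff₀ hr0]
          linarith
        linarith
      have h2 : F (k + 1) = 0 := by
        rw [hF]
        simp only
        rw [h1, Complex.ofReal_zero, mul_zero]
      rw [h2, norm_zero]
      positivity
  have hsum : ‖∑ k ∈ Finset.range L, F (k + 1)‖ ≤ 3 / 4 := by
    refine (norm_sum_le _ _).trans ((Finset.sum_le_sum hFk).trans ?_)
    rw [← Finset.mul_sum]
    have h1 : ∑ k ∈ Finset.range L, σ ^ k ≤ (1 - σ)⁻¹ := by
      rw [← tsum_geometric_of_lt_one hσ0.le hσ1]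
      exact (summable_geometric_of_lt_one hσ0.le hσ1).sum_le_tsum _ (fun i _ => by positivity)
    have h2 : 0 < 1 - σ := by linarith
    calc 4 * σ ^ k₁ * ∑ k ∈ Finset.range L, σ ^ k ≤ 4 * σ ^ k₁ * (1 - σ)⁻¹ := mul_le_mul_of_nonneg_left h1 (by positivity)
      _ ≤ 4 * (3 / 16 * (1 - σ)) * (1 - σ)⁻¹ := by gcongr
      _ = 3 / 4 := by field_simp; norm_num
  have hall : ∑ k ∈ Finset.range (L + 1), (s : ℂ) ^ k * (deriv (f^[k]) (f b))⁻¹ *
      ((max 0 (1 - ‖f^[k] (f b) - f b‖ / r) : ℝ) : ℂ) = ∑ k ∈ Finset.range L, F (k + 1) + 1 := by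
    rw [← hF0, ← Finset.sum_range_succ' F L, hF]
  rw [hall]
  have h1 : ‖(1 : ℂ)‖ ≤ ‖∑ k ∈ Finset.range L, F (k + 1) + 1‖ + ‖∑ k ∈ Finset.range L, F (k + 1)‖ := by
    have h2 : (1 : ℂ) = (∑ k ∈ Finset.range L, F (k + 1) + 1) - ∑ k ∈ Finset.range L, F (k + 1) := by ring
    calc ‖(1 : ℂ)‖ = ‖(∑ k ∈ Finset.range L, F (k + 1) + 1) - ∑ k ∈ Finset.range L, F (k + 1)‖ := by rw [← h2]
      _ ≤ _ := norm_sub_le _ _
  rw [norm_one] at h1
  linarith

end Pool.Agent.H39.GR
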