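import Pool.Agent.H39.GR.G1

/-!
# LOC / ATT (MP_8f2e1c, think 1982): growth of balls with restarts

`stage`: no critical point within `√R_i` of `v_i`: the radius is multiplied by `|f' (v_i)| (1 + q)`. `grow`: all balls `ball (f a) ρ`, `ρ` exponentially small, grow at most
by `exp (Γ (rk a + 1) + 2 ε t)` up to time `t ≤ L`: a restart costs the factor `exp Γ`; two restarts at distance `< j₁` are exact hits of critical points, which decrease the
rank `rk`; the others are paid by the time.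
-/

set_option autoImplicit false

open Filter Topology Metric Set

namespace Pool.Agent.H39.GR

variable {f : ℂ → ℂ} {J C : Set ℂ} {K c δ D : ℝ}

/-- number of critical points which are hit by the orbit of `f a` -/
noncomputable def rk (f : ℂ → ℂ) (C : Set ℂ) (a : ℂ) : ℕ := Set.ncard {a' | a' ∈ C ∧ ∃ j : ℕ, f^[j] (f a) = a'}

theorem rk_le (h : GD f J C K c δ D) (a : ℂ) : rk f C a ≤ Set.ncard C :=
  Set.ncard_le_ncard (fun _ hx => hx.1) h.Cf

theorem rk_lt (h : GD f J C K c δ D) {a a' : ℂ} (ha' : a' ∈ C) {j : ℕ} (hj : f^[j] (f a) = a') :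
    rk f C a' + 1 ≤ rk f C a := by
  refine Nat.succ_le_of_lt (Set.ncard_lt_ncard ⟨?_, ?_⟩ (h.Cf.subset fun _ hx => hx.1))
  · rintro x ⟨hx, i, hi⟩
    refine ⟨hx, i + (j + 1), ?_⟩
    rw [Function.iterate_add_apply, Function.iterate_succ_apply', hj]
    exact hi
  · intro hsub
    obtain ⟨-, i, hi⟩ := hsub (show a' ∈ {x | x ∈ C ∧ ∃ j : ℕ, f^[j] (f a) = x} from ⟨ha', j, hj⟩)
    exact nper h ha' i hi

/-- the radius after `i` steps -/
noncomputable def Rd (f : ℂ → ℂ) (v : ℂ) (ρ q : ℝ) (i : ℕ) : ℝ := ρ * M f i v * (1 + q) ^ i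

theorem stage (h : GD f J C K c δ D) {v : ℂ} (hv : v ∈ J) {ρ θ q : ℝ} (hρ : 0 ≤ ρ) (hθ0 : 0 ≤ θ) (hq : q = K / c * √θ) (hθδ : θ ≤ δ)
    {n : ℕ} (hR : ∀ i < n, Rd f v ρ q i ≤ θ) (hno : ∀ i < n, c * √(Rd f v ρ q i) ≤ ‖deriv f (f^[i] v)‖) :
    ∀ x : ℂ, ‖x - v‖ ≤ ρ → ‖f^[n] x - f^[n] v‖ ≤ Rd f v ρ q n := by
  have hK0 : 0 < K := zero_lt_one.trans_le h.hK
  have hc := h.hc
  have hq0 : 0 ≤ q := by rw [hq]; positivity
  induction n with
  | zero =>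
    intro x hx
    have h1 : Rd f v ρ q 0 = ρ := by
      unfold Rd
      rw [M_zero, mul_one, pow_zero, mul_one]
    rw [h1]
    exact hx
  | succ n ih =>
    intro x hx
    have h1 := ih (fun i hi => hR i (by omega)) (fun i hi => hno i (by omega)) x hx
    have h2 := hR n (by omega)
    have h3 := hno n (by omega)
    have hR0 : 0 ≤ Rd f v ρ q n := mul_nonneg (mul_nonneg hρ (M_nn n _)) (pow_nonneg (by linarith) _)
    rw [Function.iterate_succ_apply', Function.iterate_succ_apply']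
    have h4 := stp h (itJ h n hv) (h2.trans hθδ) h1
    have h5 : Rd f v ρ q (n + 1) = ‖deriv f (f^[n] v)‖ * Rd f v ρ q n * (1 + q) := by
      unfold Rd
      rw [M_succ h n hv, pow_succ]
      ring
    rw [h5]
    have h6 : K * Rd f v ρ q n ≤ q * ‖deriv f (f^[n] v)‖ := by
      have h7 : √(Rd f v ρ q n) * √(Rd f v ρ q n) = Rd f v ρ q n := Real.mul_self_sqrt hR0
      have h8 : √(Rd f v ρ q n) ≤ √θ := Real.sqrt_le_sqrt h2
      have h9 : 0 ≤ √(Rd f v ρ q n) := Real.sqrt_nonneg _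
      have h10 : K / c * √(Rd f v ρ q n) * (c * √(Rd f v ρ q n)) = K * (√(Rd f v ρ q n) * √(Rd f v ρ q n)) := by
        field_simp
      rw [h7] at h10
      calc K * Rd f v ρ q n = K / c * √(Rd f v ρ q n) * (c * √(Rd f v ρ q n)) := h10.symm
        _ ≤ K / c * √θ * ‖deriv f (f^[n] v)‖ := by gcongr
        _ = q * ‖deriv f (f^[n] v)‖ := by rw [hq]
    have h7 : K * Rd f v ρ q n ^ 2 ≤ q * ‖deriv f (f^[n] v)‖ * Rd f v ρ q n := by nlinarith
    nlinarith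

/-- the constants of the growth lemma -/
structure GC (f : ℂ → ℂ) (C : Set ℂ) (K c δ : ℝ) (A ε Γ θ q η : ℝ) (j₁ L : ℕ) : Prop where
  hA : ∀ a ∈ C, ∀ n : ℕ, M f n (f a) ≤ A * Real.exp (ε * n)
  hε : 0 < ε
  hA1 : 1 ≤ A
  hΓ0 : 0 ≤ Γ
  hΓ : 8 * K * A ≤ Real.exp Γ
  hj : Γ * (Set.ncard C + 1) ≤ ε * j₁
  hη : ∀ a ∈ C, ∀ a' ∈ C, ∀ j < j₁, f^[j] (f a) ≠ a' → η ≤ ‖f^[j] (f a) - a'‖
  θ0 : 0 < θ
  θ1 : θ ≤ 1
  θη : √θ ≤ η
  θδ : 2 * √θ ≤ δ
  hq : q = K / c * √θ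
  hL : (1 + q) ^ L ≤ 2

theorem gc_pow (h : GD f J C K c δ D) {A ε Γ θ q η : ℝ} {j₁ L : ℕ} (g : GC f C K c δ A ε Γ θ q η j₁ L) {i : ℕ} (hi : i ≤ L) :
    0 ≤ q ∧ (1 + q) ^ i ≤ 2 := by
  have hK0 : 0 < K := zero_lt_one.trans_le h.hK
  have hc := h.hc
  have hq0 : 0 ≤ q := by rw [g.hq]; positivity
  exact ⟨hq0, (pow_le_pow_right₀ (by linarith) hi).trans g.hL⟩

theorem gc_θ (h : GD f J C K c δ D) {A ε Γ θ q η : ℝ} {j₁ L : ℕ} (g : GC f C K c δ A ε Γ θ q η j₁ L) : θ ≤ √θ ∧ θ ≤ δ := by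
  have h1 : √θ * √θ = θ := Real.mul_self_sqrt g.θ0.le
  have h2 : √θ ≤ 1 := by
    rw [show (1 : ℝ) = √1 by rw [Real.sqrt_one]]
    exact Real.sqrt_le_sqrt g.θ1
  have h3 : 0 ≤ √θ := Real.sqrt_nonneg _
  have h4 : θ ≤ √θ := by nlinarith
  have := g.θδ
  exact ⟨h4, by linarith⟩

/-- the radius of a stage -/
theorem gc_R (h : GD f J C K c δ D) {A ε Γ θ q η : ℝ} {j₁ L : ℕ} (g : GC f C K c δ A ε Γ θ q η j₁ L) {a : ℂ} (ha : a ∈ C)
    {ρ : ℝ} (hρ : 0 ≤ ρ) {i : ℕ} (hi : i ≤ L) : Rd f (f a) ρ q i ≤ 2 * A * ρ * Real.exp (ε * i) ∧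
      4 * K * Rd f (f a) ρ q i ≤ ρ * Real.exp (Γ + ε * i) ∧ Rd f (f a) ρ q i ≤ ρ * Real.exp (Γ + ε * i) := by
  obtain ⟨hq0, h1⟩ := gc_pow h g hi
  have h2 := g.hA a ha i
  have hK := h.hK
  have hA1 := g.hA1
  have he := Real.exp_pos (ε * i)
  have h0 : 0 ≤ (1 + q) ^ i := pow_nonneg (by linarith) _
  have h3 : Rd f (f a) ρ q i ≤ 2 * A * ρ * Real.exp (ε * i) := by
    unfold Rd
    calc ρ * M f i (f a) * (1 + q) ^ i ≤ ρ * (A * Real.exp (ε * i)) * 2 := by gcongr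
      _ = 2 * A * ρ * Real.exp (ε * i) := by ring
  have h5 : 4 * K * (2 * A * ρ * Real.exp (ε * i)) ≤ ρ * Real.exp (Γ + ε * i) := by
    rw [Real.exp_add]
    calc 4 * K * (2 * A * ρ * Real.exp (ε * i)) = ρ * (8 * K * A * Real.exp (ε * i)) := by ring
      _ ≤ ρ * (Real.exp Γ * Real.exp (ε * i)) := by
        have := g.hΓ
        gcongr
  have h6 : 0 ≤ Rd f (f a) ρ q i := mul_nonneg (mul_nonneg hρ (M_nn i _)) h0
  refine ⟨h3, ?_, ?_⟩
  · refine le_trans ?_ h5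
    have : 0 ≤ 4 * K := by linarith
    exact mul_le_mul_of_nonneg_left h3 this
  · refine h3.trans (le_trans ?_ h5)
    have : 0 ≤ 2 * A * ρ * Real.exp (ε * i) := by positivity
    nlinarith

/-- the first restart -/
theorem first (h : GD f J C K c δ D) {A ε Γ θ q η : ℝ} {j₁ L : ℕ} (g : GC f C K c δ A ε Γ θ q η j₁ L) {a : ℂ} (ha : a ∈ C)
    {ρ : ℝ} (hρ : 0 < ρ) {t : ℕ} (ht : t ≤ L) (hθ : ∀ i ≤ t, Rd f (f a) ρ q i ≤ θ) :
    (∀ x : ℂ, ‖x - f a‖ ≤ ρ → ‖f^[t] x - f^[t] (f a)‖ ≤ Rd f (f a) ρ q t) ∨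
      ∃ j < t, ∃ a' ∈ C, 0 < Rd f (f a) ρ q j ∧ ‖f^[j] (f a) - a'‖ < √(Rd f (f a) ρ q j) ∧
        ∀ x : ℂ, ‖x - f a‖ ≤ ρ → ‖f^[j] x - f^[j] (f a)‖ ≤ Rd f (f a) ρ q j := by
  have hv : f a ∈ J := h.Jf _ (h.CJ ha)
  have hc := h.hc
  by_cases hall : ∀ i < t, c * √(Rd f (f a) ρ q i) ≤ ‖deriv f (f^[i] (f a))‖
  · exact Or.inl (stage h hv hρ.le g.θ0.le g.hq (gc_θ h g).2 (fun i hi => hθ i hi.le) hall)
  · right
    push Not at hall
    classical
    have hex : ∃ j, j < t ∧ ‖deriv f (f^[j] (f a))‖ < c * √(Rd f (f a) ρ q j) := hall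
    obtain ⟨j, ⟨hjt, hj⟩, hmin⟩ : ∃ j, (j < t ∧ ‖deriv f (f^[j] (f a))‖ < c * √(Rd f (f a) ρ q j)) ∧
        ∀ i < j, c * √(Rd f (f a) ρ q i) ≤ ‖deriv f (f^[i] (f a))‖ := by
      refine ⟨Nat.find hex, Nat.find_spec hex, fun i hi => ?_⟩
      have h1 := Nat.find_min hex hi
      by_contra h2
      rw [not_le] at h2
      exact h1 ⟨hi.trans (Nat.find_spec hex).1, h2⟩
    have hs : 0 < √(Rd f (f a) ρ q j) := by
      have h1 : 0 < c * √(Rd f (f a) ρ q j) := (norm_nonneg _).trans_lt hj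
      exact pos_of_mul_pos_right h1 hc.le
    have hs2 : √(Rd f (f a) ρ q j) ≤ √θ := Real.sqrt_le_sqrt (hθ j hjt.le)
    obtain ⟨a', ha', h1⟩ := h.lb _ (itJ h j hv) _ hs (by have := g.θδ; have := Real.sqrt_nonneg θ; linarith) hj
    exact ⟨j, hjt, a', ha', Real.sqrt_pos.1 hs, h1,
      stage h hv hρ.le g.θ0.le g.hq (gc_θ h g).2 (fun i hi => hθ i (by omega)) hmin⟩

theorem grow (h : GD f J C K c δ D) {A ε Γ θ q η : ℝ} {j₁ L : ℕ} (g : GC f C K c δ A ε Γ θ q η j₁ L) :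
    ∀ t ≤ L, ∀ a ∈ C, ∀ ρ : ℝ, 0 < ρ → ρ * Real.exp (Γ * (rk f C a + 1) + 2 * ε * t) ≤ θ →
      ∃ y : ℂ, ∀ x : ℂ, ‖x - f a‖ ≤ ρ → ‖f^[t] x - y‖ ≤ ρ * Real.exp (Γ * (rk f C a + 1) + 2 * ε * t) := by
  intro t
  induction t using Nat.strong_induction_on with
  | _ t ih =>
    intro htL a ha ρ hρ hθ
    have hε := g.hε
    have hΓ0 := g.hΓ0
    have hK0 : 0 < K := zero_lt_one.trans_le h.hK
    have hE : ∀ i ≤ t, ρ * Real.exp (Γ + ε * i) ≤ ρ * Real.exp (Γ * (rk f C a + 1) + 2 * ε * t) := by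
      intro i hi
      refine mul_le_mul_of_nonneg_left (Real.exp_le_exp.2 ?_) hρ.le
      have h1 : (i : ℝ) ≤ t := by exact_mod_cast hi
      have h2 : (0 : ℝ) ≤ rk f C a := Nat.cast_nonneg _
      have h3 : 0 ≤ Γ * rk f C a := mul_nonneg hΓ0 h2
      have h4 : ε * i ≤ ε * t := mul_le_mul_of_nonneg_left h1 hε.le
      have h5 : 0 ≤ ε * t := by positivity
      nlinarith
    have hRθ : ∀ i ≤ t, Rd f (f a) ρ q i ≤ θ := fun i hi =>
      ((gc_R h g ha hρ.le (hi.trans htL)).2.2.trans (hE i hi)).trans hθ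
    rcases first h g ha hρ htL hRθ with h1 | ⟨j, hjt, a', ha', hR0, hd, hst⟩
    · exact ⟨f^[t] (f a), fun x hx => (h1 x hx).trans ((gc_R h g ha hρ.le htL).2.2.trans (hE t le_rfl))⟩
    · have hjL : j ≤ L := hjt.le.trans htL
      obtain ⟨R, hR⟩ : ∃ R : ℝ, R = Rd f (f a) ρ q j := ⟨_, rfl⟩
      rw [← hR] at hR0 hd hst
      have hRθ' : R ≤ θ := by rw [hR]; exact hRθ j hjt.le
      have hsq : √R ≤ √θ := Real.sqrt_le_sqrt hRθ'
      have hs0 : 0 ≤ √R := Real.sqrt_nonneg _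
      have hRs : R ≤ √R := by
        have h1 : √R * √R = R := Real.mul_self_sqrt hR0.le
        have h2 : √θ ≤ 1 := by
          rw [show (1 : ℝ) = √1 by rw [Real.sqrt_one]]
          exact Real.sqrt_le_sqrt g.θ1
        nlinarith
      obtain ⟨ρ', hρ'⟩ : ∃ ρ' : ℝ, ρ' = ρ * Real.exp (Γ + ε * j) := ⟨_, rfl⟩
      have hρ'0 : 0 < ρ' := by rw [hρ']; positivity
      have hexp : ρ' * Real.exp (Γ * (rk f C a' + 1) + 2 * ε * ((t - j - 1 : ℕ) : ℝ)) ≤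
          ρ * Real.exp (Γ * (rk f C a + 1) + 2 * ε * t) := by
        rw [hρ', mul_assoc, ← Real.exp_add]
        refine mul_le_mul_of_nonneg_left (Real.exp_le_exp.2 ?_) hρ.le
        have e1 : ((t - j - 1 : ℕ) : ℝ) = (t : ℝ) - j - 1 := by
          rw [Nat.sub_sub, Nat.cast_sub (by omega)]
          push_cast
          ring
        rw [e1]
        rcases Nat.lt_or_ge j j₁ with hj | hj
        · have h1 : f^[j] (f a) = a' := by
            by_contra hne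
            have h2 := g.hη a ha a' ha' j hj hne
            have := g.θη
            linarith
          have h2 := rk_lt h ha' h1
          have h3 : (rk f C a' : ℝ) + 1 ≤ rk f C a := by exact_mod_cast h2
          have h4 : Γ * ((rk f C a' : ℝ) + 1) ≤ Γ * rk f C a := mul_le_mul_of_nonneg_left h3 hΓ0
          have h5 : 0 ≤ ε * j := by positivity
          nlinarith
        · have h1 : (j₁ : ℝ) ≤ j := by exact_mod_cast hj
          have h2 : (rk f C a' : ℝ) ≤ Set.ncard C := by exact_mod_cast rk_le h a'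
          have h3 : Γ * (rk f C a' : ℝ) ≤ Γ * Set.ncard C := mul_le_mul_of_nonneg_left h2 hΓ0
          have h4 := g.hj
          have h5 : ε * j₁ ≤ ε * j := mul_le_mul_of_nonneg_left h1 hε.le
          have h6 : (0 : ℝ) ≤ Γ * rk f C a := mul_nonneg hΓ0 (Nat.cast_nonneg _)
          nlinarith
      obtain ⟨y, hy⟩ := ih (t - j - 1) (by omega) (by omega) a' ha' ρ' hρ'0 (hexp.trans hθ)
      refine ⟨y, fun x hx => ?_⟩
      have h1 := hst x hx
      have h2 : ‖f^[j] x - a'‖ ≤ 2 * √R := by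
        have h3 : f^[j] x - a' = (f^[j] x - f^[j] (f a)) + (f^[j] (f a) - a') := by ring
        have h4 : ‖f^[j] x - a'‖ ≤ ‖f^[j] x - f^[j] (f a)‖ + ‖f^[j] (f a) - a'‖ := by
          rw [h3]
          exact norm_add_le _ _
        linarith
      have h3 := stc h ha' (r := 2 * √R) (by have := g.θδ; linarith) h2
      have h4 : K * (2 * √R) ^ 2 = 4 * K * R := by
        rw [mul_pow, Real.sq_sqrt hR0.le]
        ring
      rw [h4] at h3
      have h5 : 4 * K * R ≤ ρ' := by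
        rw [hR, hρ']
        exact (gc_R h g ha hρ.le hjL).2.1
      have h6 := hy (f (f^[j] x)) (h3.trans h5)
      rw [← Function.iterate_succ_apply' f j x, ← Function.iterate_add_apply, show t - j - 1 + (j + 1) = t by omega] at h6
      exact h6.trans hexp

end Pool.Agent.H39.GR
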