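import Pool.Agent.H39.GR.Mk
import Pool.Agent.H66.SP.Defs
import Pool.Agent.H80.AJ.Distort

/-!
# LOC / ATT (MP_8f2e1c, think 1982): the growth setting `GD` in the planar settings `PG` and `PS`
-/

set_option autoImplicit false

open Filter Topology Metric Set

namespace Pool.Agent.H39.GR

open Pool.Agent.H66.SP (PG)

variable {f : ℂ → ℂ} {U J P Cr : Set ℂ} {δ : ℝ} {η : ℂ → ℂ → ℂ} {ρ : ℝ}

private theorem in_der {h : ℂ → ℂ} {ρ : ℝ} (hd : DifferentiableOn ℂ h (ball 0 ρ)) (hi : InjOn h (ball 0 ρ)) {v : ℂ}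
    (hv : v ∈ ball (0 : ℂ) ρ) : deriv h v ≠ 0 := by
  rw [mem_ball_zero_iff] at hv
  have hR : 0 < ρ - ‖v‖ := by linarith
  have hs : ball v (ρ - ‖v‖) ⊆ ball 0 ρ := by
    intro w hw
    rw [mem_ball, dist_eq_norm] at hw
    rw [mem_ball_zero_iff]
    have h1 : ‖w‖ ≤ ‖w - v‖ + ‖v‖ := by
      have h2 : w = (w - v) + v := by ring
      calc ‖w‖ = ‖(w - v) + v‖ := by rw [← h2]
        _ ≤ _ := norm_add_le _ _
    linarith
  exact norm_pos_iff.1 (Pool.Agent.H80.AJ.deriv_ne hR (hd.mono hs) (hi.mono hs) (mem_closedBall_self (by linarith)))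

theorem gd_pg (h : PG f U J P Cr δ η ρ) : ∃ K c δ' D : ℝ, GD f J Cr K c δ' D := by
  obtain ⟨D, hD, hJd⟩ := h.Jd
  have key : ∀ c ∈ Cr, ∀ v ∈ ball (0 : ℂ) ρ, deriv f (η c v) * deriv (η c) v = 2 * v := by
    intro c hc v hv
    obtain ⟨hd, -, -, hval⟩ := h.nf c hc
    have h1 : DifferentiableAt ℂ (η c) v := hd.differentiableAt (isOpen_ball.mem_nhds hv)
    have h2 : DifferentiableAt ℂ f (η c v) := h.fd.differentiableAt (h.Uo.mem_nhds (hval v hv).1)
    have h3 : HasDerivAt (fun w => f (η c w)) (deriv f (η c v) * deriv (η c) v) v := h2.hasDerivAt.comp v h1.hasDerivAt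
    have h4 : HasDerivAt (fun w : ℂ => f c + w ^ 2) (2 * v) v := by
      have h5 := ((hasDerivAt_id v).pow 2).const_add (f c)
      simpa using h5
    have h5 : (fun w => f (η c w)) =ᶠ[𝓝 v] fun w => f c + w ^ 2 := by
      filter_upwards [isOpen_ball.mem_nhds hv] with w hw
      exact (hval w hw).2
    exact h3.unique (h4.congr_of_eventuallyEq h5)
  have h0 : ∀ c ∈ Cr, deriv f c = 0 := by
    intro c hc
    obtain ⟨hd, hi, hz, -⟩ := h.nf c hc
    have h1 := key c hc 0 (mem_ball_self h.hρ)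
    rw [hz, mul_zero] at h1
    exact (mul_eq_zero.1 h1).resolve_right (in_der hd hi (mem_ball_self h.hρ))
  obtain ⟨K, c, δ', hg, -⟩ := gd_mk (C := Cr) (D := D / 2) h.Uo h.fd h.Jc h.JU h.Jf h.Cf h.CJ (by
      intro z hz hz0
      obtain ⟨δ1, hδ1, -, hloc⟩ := h.loc
      rcases hloc (f z) (h.Jf z hz) z (h.JU hz) (mem_ball_self hδ1) with ⟨g, hg, hgz, hgu⟩ | ⟨c, hc, -, v, hv, hvz⟩
      · exfalso
        have h1 : DifferentiableAt ℂ g (f z) := hg.differentiableAt (isOpen_ball.mem_nhds (mem_ball_self hδ1))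
        have h2 : DifferentiableAt ℂ f (g (f z)) := by
          rw [hgz]
          exact h.fd.differentiableAt (h.Uo.mem_nhds (h.JU hz))
        have h3 : HasDerivAt (fun w => f (g w)) (deriv f (g (f z)) * deriv g (f z)) (f z) :=
          h2.hasDerivAt.comp (f z) h1.hasDerivAt
        have h4 : (fun w => f (g w)) =ᶠ[𝓝 (f z)] id := by
          filter_upwards [isOpen_ball.mem_nhds (mem_ball_self hδ1)] with w hw
          exact (hgu w hw).2
        have h5 := h3.unique ((hasDerivAt_id (f z)).congr_of_eventuallyEq h4)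
        rw [hgz, hz0, zero_mul] at h5
        exact zero_ne_one h5
      · obtain ⟨hd, hi, hz', -⟩ := h.nf c hc
        have h1 := key c hc v hv
        rw [hvz, hz0, zero_mul] at h1
        have h2 : v = 0 := by
          have h3 : (2 : ℂ) * v = 0 := h1.symm
          exact (mul_eq_zero.1 h3).resolve_left two_ne_zero
        rw [← hvz, h2, hz']
        exact hc) h0 (by
      intro c hc h2
      obtain ⟨hd, hi, hz, hval⟩ := h.nf c hc
      have hb := mem_ball_self (x := (0 : ℂ)) h.hρ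
      have hU : η c 0 ∈ U := (hval 0 hb).1
      have e1 : DifferentiableAt ℂ (η c) 0 := hd.differentiableAt (isOpen_ball.mem_nhds hb)
      have e2 : DifferentiableAt ℂ (deriv (η c)) 0 := (hd.deriv isOpen_ball).differentiableAt (isOpen_ball.mem_nhds hb)
      have e3 : DifferentiableAt ℂ (deriv f) (η c 0) := (h.fd.deriv h.Uo).differentiableAt (h.Uo.mem_nhds hU)
      have e4 : HasDerivAt (fun w => deriv f (η c w)) (deriv (deriv f) (η c 0) * deriv (η c) 0) 0 :=
        e3.hasDerivAt.comp 0 e1.hasDerivAt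
      have e5 := e4.mul e2.hasDerivAt
      have e6 : (fun w => deriv f (η c w) * deriv (η c) w) =ᶠ[𝓝 0] fun w : ℂ => 2 * w := by
        filter_upwards [isOpen_ball.mem_nhds hb] with w hw
        exact key c hc w hw
      have e7 : HasDerivAt (fun w : ℂ => 2 * w) 2 0 := by
        simpa using (hasDerivAt_id (0 : ℂ)).const_mul (2 : ℂ)
      have e8 := e5.unique (e7.congr_of_eventuallyEq e6)
      rw [hz, h2, h0 c hc, zero_mul, zero_mul, zero_mul, zero_add] at e8
      exact two_ne_zero e8.symm) (by linarith) (by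
      intro v hv r hr
      obtain ⟨N, hN⟩ := h.leo (ball v r) isOpen_ball ⟨v, mem_ball_self hr, hv⟩
      obtain ⟨a, ha, b, hb, hab⟩ := hJd 0
      refine ⟨N, fun n hn => ?_⟩
      obtain ⟨x, hx, hxa⟩ := hN n hn ha
      obtain ⟨y, hy, hyb⟩ := hN n hn hb
      have h1 : D ≤ ‖a - b‖ := hab
      have h2 : ‖a - b‖ ≤ ‖a - f^[n] v‖ + ‖b - f^[n] v‖ := by
        have h3 : a - b = (a - f^[n] v) - (b - f^[n] v) := by ring
        rw [h3]
        exact norm_sub_le _ _
      rcases le_total (D / 2) ‖a - f^[n] v‖ with h3 | h3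
      · refine ⟨x, ?_, by rw [hxa]; exact h3⟩
        have h4 := hx.1
        rw [mem_ball, dist_eq_norm] at h4
        exact h4.le
      · refine ⟨y, ?_, by rw [hyb]; linarith⟩
        have h4 := hy.1
        rw [mem_ball, dist_eq_norm] at h4
        exact h4.le)
  exact ⟨K, c, δ', D / 2, hg⟩

theorem gd_ps (h : Pool.Agent.H56.UD.PS f U J P Cr δ η ρ) : ∃ K c δ' D : ℝ, GD f J Cr K c δ' D :=
  gd_pg (Pool.Agent.H66.SP.pg_ps h)

end Pool.Agent.H39.GR
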