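import Pool.Agent.H39.GR.Defs

/-!
# LOC / ATT (MP_8f2e1c, think 1982): the setting `GD` from a holomorphic map near a compact set

`gd_mk`: `f` holomorphic on the open set `U ⊇ J`, `J` compact and forward invariant, `C` the (finitely many, simple) critical points in `J`, images of balls are not small.
-/

set_option autoImplicit false

open Filter Topology Metric Set

namespace Pool.Agent.H39.GR

/-- the lower bound for the derivative -/
private theorem lb_ex {f : ℂ → ℂ} {U J C : Set ℂ} (hU : IsOpen U) (hf : DifferentiableOn ℂ f U) (hJ : IsCompact J) (hJU : J ⊆ U)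
    (hCf : C.Finite) (hCJ : C ⊆ J) (h1 : ∀ z ∈ J, deriv f z = 0 → z ∈ C) (h0 : ∀ a ∈ C, deriv f a = 0)
    (h2 : ∀ a ∈ C, deriv (deriv f) a ≠ 0) {δ : ℝ} (hδ : 0 < δ) : ∃ c : ℝ, 0 < c ∧ ∀ w ∈ J, ∀ r : ℝ, 0 < r → r ≤ δ →
      ‖deriv f w‖ < c * r → ∃ a ∈ C, ‖w - a‖ < r := by
  have hfd : DifferentiableOn ℂ (deriv f) U := hf.deriv hU
  have hloc : ∀ x ∈ J, ∃ c : ℝ, 0 < c ∧ ∀ᶠ w in 𝓝 x, ∀ r : ℝ, 0 < r → r ≤ δ → ‖deriv f w‖ < c * r → ∃ a ∈ C, ‖w - a‖ < r := by
    intro x hx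
    by_cases hxC : x ∈ C
    · have hm : 0 < ‖deriv (deriv f) x‖ := norm_pos_iff.2 (h2 x hxC)
      refine ⟨‖deriv (deriv f) x‖ / 2, by linarith, ?_⟩
      have hd : HasDerivAt (deriv f) (deriv (deriv f) x) x :=
        (hfd.differentiableAt (hU.mem_nhds (hJU hx))).hasDerivAt
      have h3 := (hasDerivAt_iff_isLittleO.1 hd).def (show (0 : ℝ) < ‖deriv (deriv f) x‖ / 2 by linarith)
      filter_upwards [h3] with w hw r hr _ hlt
      refine ⟨x, hxC, ?_⟩
      rw [h0 x hxC, sub_zero, smul_eq_mul] at hw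
      have h4 : ‖(w - x) * deriv (deriv f) x‖ ≤ ‖deriv f w‖ + ‖deriv f w - (w - x) * deriv (deriv f) x‖ := by
        have h5 : (w - x) * deriv (deriv f) x = deriv f w - (deriv f w - (w - x) * deriv (deriv f) x) := by ring
        calc ‖(w - x) * deriv (deriv f) x‖ = ‖deriv f w - (deriv f w - (w - x) * deriv (deriv f) x)‖ := by rw [← h5]
          _ ≤ _ := norm_sub_le _ _
      rw [norm_mul] at h4
      have h6 : ‖w - x‖ * ‖deriv (deriv f) x‖ / 2 ≤ ‖deriv f w‖ := by linarith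
      have h7 : ‖w - x‖ * (‖deriv (deriv f) x‖ / 2) < r * (‖deriv (deriv f) x‖ / 2) := by linarith
      exact lt_of_mul_lt_mul_right h7 (by linarith)
    · have hne : deriv f x ≠ 0 := fun he => hxC (h1 x hx he)
      have hm : 0 < ‖deriv f x‖ := norm_pos_iff.2 hne
      refine ⟨‖deriv f x‖ / (2 * δ), by positivity, ?_⟩
      have hc : ContinuousAt (fun w => ‖deriv f w‖) x :=
        (hfd.differentiableAt (hU.mem_nhds (hJU hx))).continuousAt.norm
      have h3 : ∀ᶠ w in 𝓝 x, ‖deriv f x‖ / 2 < ‖deriv f w‖ := hc.eventually (lt_mem_nhds (by linarith))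
      filter_upwards [h3] with w hw r hr hrδ hlt
      exfalso
      have h4 : ‖deriv f x‖ / (2 * δ) * r ≤ ‖deriv f x‖ / 2 := by
        rw [div_mul_eq_mul_div, div_le_div_iff₀ (by positivity) (by norm_num)]
        nlinarith
      linarith
  refine hJ.induction_on (p := fun S => ∃ c : ℝ, 0 < c ∧ ∀ w ∈ S, ∀ r : ℝ, 0 < r → r ≤ δ → ‖deriv f w‖ < c * r →
    ∃ a ∈ C, ‖w - a‖ < r) ⟨1, one_pos, fun w hw => absurd hw (Set.notMem_empty w)⟩ ?_ ?_ ?_
  · rintro S T hST ⟨c, hc, h3⟩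
    exact ⟨c, hc, fun w hw => h3 w (hST hw)⟩
  · rintro S T ⟨c, hc, h3⟩ ⟨c', hc', h4⟩
    refine ⟨min c c', lt_min hc hc', fun w hw r hr hrδ hlt => ?_⟩
    rcases hw with hw | hw
    · exact h3 w hw r hr hrδ (hlt.trans_le (mul_le_mul_of_nonneg_right (min_le_left _ _) hr.le))
    · exact h4 w hw r hr hrδ (hlt.trans_le (mul_le_mul_of_nonneg_right (min_le_right _ _) hr.le))
  · intro x hx
    obtain ⟨c, hc, h3⟩ := hloc x hx
    exact ⟨{w | ∀ r : ℝ, 0 < r → r ≤ δ → ‖deriv f w‖ < c * r → ∃ a ∈ C, ‖w - a‖ < r}, mem_nhdsWithin_of_mem_nhds h3, c, hc,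
      fun w hw => hw⟩

theorem gd_mk {f : ℂ → ℂ} {U J C : Set ℂ} (hU : IsOpen U) (hf : DifferentiableOn ℂ f U) (hJ : IsCompact J) (hJU : J ⊆ U)
    (hJf : ∀ z ∈ J, f z ∈ J) (hCf : C.Finite) (hCJ : C ⊆ J) (h1 : ∀ z ∈ J, deriv f z = 0 → z ∈ C) (h0 : ∀ a ∈ C, deriv f a = 0)
    (h2 : ∀ a ∈ C, deriv (deriv f) a ≠ 0) {D : ℝ} (hD : 0 < D)
    (hnn : ∀ v ∈ J, ∀ r : ℝ, 0 < r → ∃ N : ℕ, ∀ n ≥ N, ∃ x : ℂ, ‖x - v‖ ≤ r ∧ D ≤ ‖f^[n] x - f^[n] v‖) :
    ∃ K c δ : ℝ, GD f J C K c δ D ∧ cthickening δ J ⊆ U := by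
  obtain ⟨δ₀, hδ₀, hth⟩ := hJ.exists_cthickening_subset_open hU hJU
  obtain ⟨δ, hδ⟩ : ∃ δ : ℝ, δ = δ₀ / 2 := ⟨_, rfl⟩
  have hδ0 : 0 < δ := by rw [hδ]; linarith
  have hball : ∀ w ∈ J, ∀ z : ℂ, ‖z - w‖ ≤ δ₀ → z ∈ U := by
    intro w hw z hz
    refine hth (mem_cthickening_of_dist_le z w δ₀ J hw ?_)
    rw [dist_eq_norm]
    exact hz
  have hcc : IsCompact (cthickening δ₀ J) := hJ.cthickening
  -- bounds for the two derivatives on the closed neighbourhood
  have hfd : DifferentiableOn ℂ (deriv f) U := hf.deriv hU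
  have hfdd : DifferentiableOn ℂ (deriv (deriv f)) U := hfd.deriv hU
  obtain ⟨A, hA⟩ := hcc.exists_bound_of_continuousOn (hfd.continuousOn.mono hth)
  obtain ⟨B, hB⟩ := hcc.exists_bound_of_continuousOn (hfdd.continuousOn.mono hth)
  obtain ⟨K, hK⟩ : ∃ K : ℝ, K = max 1 (max A B) := ⟨_, rfl⟩
  have hK1 : 1 ≤ K := by rw [hK]; exact le_max_left _ _
  have hKA : A ≤ K := by rw [hK]; exact (le_max_left _ _).trans (le_max_right _ _)
  have hKB : B ≤ K := by rw [hK]; exact (le_max_right _ _).trans (le_max_right _ _)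
  have hseg : ∀ w ∈ J, ∀ z : ℂ, ‖z - w‖ ≤ δ₀ → z ∈ cthickening δ₀ J := fun w hw z hz =>
    mem_cthickening_of_dist_le z w δ₀ J hw (by rw [dist_eq_norm]; exact hz)
  have hlip : ∀ w ∈ J, ∀ z : ℂ, ‖z - w‖ ≤ δ₀ → ‖f z - f w‖ ≤ K * ‖z - w‖ := by
    intro w hw z hz
    have hconv : Convex ℝ (closedBall w δ₀) := convex_closedBall w δ₀
    have hd : ∀ x ∈ closedBall w δ₀, DifferentiableAt ℂ f x := by
      intro x hx
      rw [mem_closedBall, dist_eq_norm] at hx
      exact hf.differentiableAt (hU.mem_nhds (hball w hw x hx))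
    have hb : ∀ x ∈ closedBall w δ₀, ‖deriv f x‖ ≤ K := by
      intro x hx
      rw [mem_closedBall, dist_eq_norm] at hx
      exact (hA x (hseg w hw x hx)).trans hKA
    exact hconv.norm_image_sub_le_of_norm_deriv_le hd hb (mem_closedBall_self hδ₀.le) (by rw [mem_closedBall, dist_eq_norm]; exact hz)
  have hlip' : ∀ w ∈ J, ∀ z : ℂ, ‖z - w‖ ≤ δ₀ → ‖deriv f z - deriv f w‖ ≤ K * ‖z - w‖ := by
    intro w hw z hz
    have hconv : Convex ℝ (closedBall w δ₀) := convex_closedBall w δ₀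
    have hd : ∀ x ∈ closedBall w δ₀, DifferentiableAt ℂ (deriv f) x := by
      intro x hx
      rw [mem_closedBall, dist_eq_norm] at hx
      exact hfd.differentiableAt (hU.mem_nhds (hball w hw x hx))
    have hb : ∀ x ∈ closedBall w δ₀, ‖deriv (deriv f) x‖ ≤ K := by
      intro x hx
      rw [mem_closedBall, dist_eq_norm] at hx
      exact (hB x (hseg w hw x hx)).trans hKB
    exact hconv.norm_image_sub_le_of_norm_deriv_le hd hb (mem_closedBall_self hδ₀.le) (by rw [mem_closedBall, dist_eq_norm]; exact hz)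
  have htay : ∀ w ∈ J, ∀ z : ℂ, ‖z - w‖ ≤ δ₀ → ‖f z - f w - deriv f w * (z - w)‖ ≤ K * ‖z - w‖ ^ 2 := by
    intro w hw z hz
    have hconv : Convex ℝ (closedBall w ‖z - w‖) := convex_closedBall w _
    have hd : ∀ x ∈ closedBall w ‖z - w‖, HasDerivWithinAt (fun y => f y - deriv f w * (y - w)) (deriv f x - deriv f w) (closedBall w ‖z - w‖) x := by
      intro x hx
      rw [mem_closedBall, dist_eq_norm] at hx
      have h3 : HasDerivAt f (deriv f x) x :=
        (hf.differentiableAt (hU.mem_nhds (hball w hw x (hx.trans hz)))).hasDerivAt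
      have h4 : HasDerivAt (fun y : ℂ => deriv f w * (y - w)) (deriv f w) x := by
        simpa using ((hasDerivAt_id x).sub_const w).const_mul (deriv f w)
      exact (h3.sub h4).hasDerivWithinAt
    have hb : ∀ x ∈ closedBall w ‖z - w‖, ‖deriv f x - deriv f w‖ ≤ K * ‖z - w‖ := by
      intro x hx
      rw [mem_closedBall, dist_eq_norm] at hx
      exact (hlip' w hw x (hx.trans hz)).trans (mul_le_mul_of_nonneg_left hx (by linarith))
    have h5 := hconv.norm_image_sub_le_of_norm_hasDerivWithin_le hd hb (mem_closedBall_self (norm_nonneg _))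
      (show z ∈ closedBall w ‖z - w‖ by rw [mem_closedBall, dist_eq_norm])
    have h6 : (fun y => f y - deriv f w * (y - w)) z - (fun y => f y - deriv f w * (y - w)) w = f z - f w - deriv f w * (z - w) := by
      simp only
      ring
    rw [h6] at h5
    refine h5.trans (le_of_eq ?_)
    ring
  obtain ⟨c, hc, hcl⟩ := lb_ex hU hf hJ hJU hCf hCJ h1 h0 h2 hδ0
  have hδδ : δ ≤ δ₀ := by rw [hδ]; linarith
  refine ⟨K, c, δ, ⟨hK1, hc, hδ0, hD, hJf, fun z hz => hf.differentiableAt (hU.mem_nhds (hJU hz)), hCf, hCJ, h0,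
    fun w hw z hz => htay w hw z (hz.trans hδδ), fun w hw z hz => hlip w hw z (hz.trans hδδ), hcl, hnn⟩, ?_⟩
  exact (cthickening_mono hδδ J).trans hth

end Pool.Agent.H39.GR
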